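import Mathlib

set_option autoImplicit false

/-!
# Two-point geometry of the line families

`V` is a normed space, lines in `ℝ × V × ℝ` with direction `(1, s, w)` and position
`(0, p (s, w), r w s)`.
-/

open Set Metric

namespace Pool.Agent.H64.KK

variable {V : Type*} [NormedAddCommGroup V] [NormedSpace ℝ V]

theorem core_h (A B : V →L[ℝ] V) (b : V) (t0 η M δ : ℝ)
    (hBA : ∀ x, B (A x + t0 • x) = x) (hM : 1 ≤ M) (hB : ‖B‖ ≤ M) (hb : ‖b‖ ≤ M)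
    (hη0 : 0 ≤ η) (hη : 8 * (η * M) ≤ 1) (hδ : 0 ≤ δ) (h X Y Z : V) (ω t : ℝ)
    (ht : |t - t0| ≤ η) (hY : ‖Y‖ ≤ δ) (hX : ‖X‖ ≤ η * (‖h‖ + |ω|)) (hZ : ‖Z‖ ≤ M * δ)
    (heq : Y = X + A h + ω • b + t • h + Z) :
    ‖h‖ ≤ 4 * M ^ 2 * (|ω| + δ) ∧
      ‖h + ω • B b‖ ≤ 3 * M ^ 2 * δ + 9 * η * M ^ 3 * |ω| := by
  set g : V := Y - X - (t - t0) • h - Z with hg
  have h1 : A h + t0 • h = g - ω • b := by
    rw [hg, heq, sub_smul]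
    abel
  have h2 : h + ω • B b = B g := by
    have h3 := hBA h
    rw [h1, map_sub, map_smul] at h3
    exact (sub_eq_iff_eq_add.1 h3).symm
  have hM0 : 0 < M := by linarith
  have hh0 := norm_nonneg h
  have hω0 := abs_nonneg ω
  have h4 : ‖g‖ ≤ (1 + M) * δ + 2 * η * ‖h‖ + η * |ω| := by
    have h5 : ‖(t - t0) • h‖ ≤ η * ‖h‖ := by
      rw [norm_smul, Real.norm_eq_abs]
      exact mul_le_mul_of_nonneg_right ht hh0
    calc ‖g‖ ≤ ‖Y‖ + ‖X‖ + ‖(t - t0) • h‖ + ‖Z‖ := by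
          rw [hg]
          exact (norm_sub_le _ _).trans (add_le_add_left ((norm_sub_le _ _).trans
            (add_le_add_left (norm_sub_le _ _) _)) _)
      _ ≤ δ + η * (‖h‖ + |ω|) + η * ‖h‖ + M * δ := by linarith
      _ = _ := by ring
  have h5 : ‖B g‖ ≤ M * ((1 + M) * δ + 2 * η * ‖h‖ + η * |ω|) :=
    (B.le_opNorm g).trans (mul_le_mul hB h4 (norm_nonneg _) hM0.le)
  have h6 : ‖ω • B b‖ ≤ M ^ 2 * |ω| := by
    rw [norm_smul, Real.norm_eq_abs]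
    have : ‖B b‖ ≤ M * M := (B.le_opNorm b).trans (mul_le_mul hB hb (norm_nonneg _) hM0.le)
    nlinarith
  have h7 : ‖h‖ ≤ ‖B g‖ + ‖ω • B b‖ := by
    have : h = B g - ω • B b := by rw [← h2]; abel
    calc ‖h‖ = ‖B g - ω • B b‖ := by rw [← this]
      _ ≤ _ := norm_sub_le _ _
  have hMδ : M * δ ≤ M ^ 2 * δ := by nlinarith [mul_nonneg hM0.le hδ]
  have hηh : M * (2 * η * ‖h‖) ≤ (1 / 4) * ‖h‖ := by nlinarith
  have hηω : M * (η * |ω|) ≤ (1 / 8) * |ω| := by nlinarith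
  have hM2 : (1 : ℝ) ≤ M ^ 2 := by nlinarith
  have h8 : ‖h‖ ≤ 4 * M ^ 2 * (|ω| + δ) := by
    have h9 : (3 / 4) * ‖h‖ ≤ 2 * M ^ 2 * δ + (1 / 8 + M ^ 2) * |ω| := by nlinarith
    have h10 : |ω| ≤ M ^ 2 * |ω| := by nlinarith
    have h11 : 0 ≤ M ^ 2 * δ := by positivity
    nlinarith
  refine ⟨h8, ?_⟩
  rw [h2]
  have h12 : M * (2 * η * ‖h‖) ≤ M ^ 2 * δ + 8 * η * M ^ 3 * |ω| := by
    have h13 : M * (2 * η * ‖h‖) ≤ M * (2 * η * (4 * M ^ 2 * (|ω| + δ))) := by gcongr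
    have h14 : M * (2 * η * (4 * M ^ 2 * (|ω| + δ))) =
        8 * η * M ^ 3 * |ω| + (8 * (η * M)) * (M ^ 2 * δ) := by ring
    have h15 : (8 * (η * M)) * (M ^ 2 * δ) ≤ 1 * (M ^ 2 * δ) :=
      mul_le_mul_of_nonneg_right hη (by positivity)
    linarith
  have h16 : M * (η * |ω|) ≤ η * M ^ 3 * |ω| := by
    have h17 : M ≤ M ^ 3 := by nlinarith
    have h18 : 0 ≤ η * |ω| := by positivity
    nlinarith
  nlinarith

theorem core_D (A B : V →L[ℝ] V) (t0 η M δ : ℝ)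
    (hBA : ∀ x, B (A x + t0 • x) = x) (hM : 1 ≤ M) (hB : ‖B‖ ≤ M)
    (hη0 : 0 ≤ η) (hη : 8 * (η * M) ≤ 1) (hδ : 0 ≤ δ) (D h X Y Z : V) (τ t : ℝ)
    (ht : |t - t0| ≤ η) (hY : ‖Y‖ ≤ 2 * δ) (hX : ‖X‖ ≤ η * ‖D‖) (hZ : ‖Z‖ ≤ 2 * M * δ)
    (heq : Y = X + A D + t • D + τ • h + Z) :
    ‖D + τ • B h‖ ≤ 4 * M ^ 2 * δ + 2 * M * η * ‖D‖ ∧
      ‖D‖ ≤ 2 * (|τ| * M * ‖h‖ + 4 * M ^ 2 * δ) := by
  set g : V := Y - X - (t - t0) • D - Z with hg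
  have h1 : A D + t0 • D = g - τ • h := by
    rw [hg, heq, sub_smul]
    abel
  have h2 : D + τ • B h = B g := by
    have h3 := hBA D
    rw [h1, map_sub, map_smul] at h3
    exact (sub_eq_iff_eq_add.1 h3).symm
  have hM0 : 0 < M := by linarith
  have hD0 := norm_nonneg D
  have h4 : ‖g‖ ≤ 4 * M * δ + 2 * η * ‖D‖ := by
    have h5 : ‖(t - t0) • D‖ ≤ η * ‖D‖ := by
      rw [norm_smul, Real.norm_eq_abs]
      exact mul_le_mul_of_nonneg_right ht hD0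
    have h6 : δ ≤ M * δ := by nlinarith
    calc ‖g‖ ≤ ‖Y‖ + ‖X‖ + ‖(t - t0) • D‖ + ‖Z‖ := by
          rw [hg]
          exact (norm_sub_le _ _).trans (add_le_add_left ((norm_sub_le _ _).trans
            (add_le_add_left (norm_sub_le _ _) _)) _)
      _ ≤ 2 * δ + η * ‖D‖ + η * ‖D‖ + 2 * M * δ := by linarith
      _ ≤ _ := by linarith
  have h5 : ‖B g‖ ≤ 4 * M ^ 2 * δ + 2 * M * η * ‖D‖ := by
    calc ‖B g‖ ≤ M * (4 * M * δ + 2 * η * ‖D‖) :=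
          (B.le_opNorm g).trans (mul_le_mul hB h4 (norm_nonneg _) hM0.le)
      _ = _ := by ring
  have h6 : ‖τ • B h‖ ≤ |τ| * M * ‖h‖ := by
    rw [norm_smul, Real.norm_eq_abs, mul_assoc]
    exact mul_le_mul_of_nonneg_left ((B.le_opNorm h).trans
      (mul_le_mul_of_nonneg_right hB (norm_nonneg _))) (abs_nonneg _)
  have h7 : ‖D‖ ≤ ‖B g‖ + ‖τ • B h‖ := by
    have : D = B g - τ • B h := by rw [← h2]; abel
    calc ‖D‖ = ‖B g - τ • B h‖ := by rw [← this]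
      _ ≤ _ := norm_sub_le _ _
  refine ⟨by rw [h2]; exact h5, ?_⟩
  have h8 : 2 * M * η * ‖D‖ ≤ (1 / 4) * ‖D‖ := by nlinarith
  have h9 : 0 ≤ |τ| * M * ‖h‖ + 4 * M ^ 2 * δ := by positivity
  linarith

/-- The pair estimate for two lines families over `w`, `w'`. -/
theorem core_pair (A B : V →L[ℝ] V) (b : V) (q : V →L[ℝ] ℝ) (t0 η M δ : ℝ)
    (hBA : ∀ x, B (A x + t0 • x) = x) (hM : 1 ≤ M) (hB : ‖B‖ ≤ M) (hb : ‖b‖ ≤ M)
    (hq : ‖q‖ ≤ M) (hS : 1 ≤ M * |1 + q (B (B b))|)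
    (hη0 : 0 ≤ η) (hη : 100 * (η * M ^ 6) ≤ 1) (hδ : 0 ≤ δ)
    (h1 h2 X1 X2 X3 Y1 Y2 Z1 Z2 : V) (ω τ t1 t2 R v1 v2 z : ℝ)
    (ht1 : |t1 - t0| ≤ η) (ht2 : |t2 - t0| ≤ η) (hτ : τ = t2 - t1)
    (hY1 : ‖Y1‖ ≤ δ) (hY2 : ‖Y2‖ ≤ δ)
    (hX1 : ‖X1‖ ≤ η * (‖h1‖ + |ω|)) (hX2 : ‖X2‖ ≤ η * (‖h2‖ + |ω|))
    (hX3 : ‖X3‖ ≤ η * ‖h2 - h1‖)
    (hZ1 : ‖Z1‖ ≤ M * δ) (hZ2 : ‖Z2‖ ≤ M * δ)
    (heq1 : Y1 = X1 + A h1 + ω • b + t1 • h1 + Z1)
    (heq2 : Y2 = X2 + A h2 + ω • b + t2 • h2 + Z2)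
    (heq3 : Y2 - Y1 = X3 + A (h2 - h1) + t1 • (h2 - h1) + τ • h2 + (Z2 - Z1))
    (hR : |R| ≤ η * ‖h2 - h1‖) (hv1 : |v1| ≤ δ) (hv2 : |v2| ≤ δ) (hz : |z| ≤ 2 * M * δ)
    (heq4 : v2 - v1 = R + q (h2 - h1) + z + τ * ω) :
    |τ| * |ω| ≤ 26 * M ^ 5 * δ := by
  have hM0 : 0 < M := by linarith
  have hMp : ∀ k : ℕ, 1 ≤ M ^ k := fun k => one_le_pow₀ hM
  have hηk : ∀ k : ℕ, k ≤ 6 → 100 * (η * M ^ k) ≤ 1 := by
    intro k hk
    have : M ^ k ≤ M ^ 6 := pow_le_pow_right₀ hM hk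
    nlinarith
  have hη1 : 8 * (η * M) ≤ 1 := by
    have := hηk 1 (by norm_num)
    rw [pow_one] at this
    nlinarith
  obtain ⟨-, -⟩ := core_h A B b t0 η M δ hBA hM hB hb hη0 hη1 hδ h1 X1 Y1 Z1 ω t1 ht1 hY1
    hX1 hZ1 heq1
  obtain ⟨ha1, ha2⟩ := core_h A B b t0 η M δ hBA hM hB hb hη0 hη1 hδ h2 X2 Y2 Z2 ω t2 ht2 hY2
    hX2 hZ2 heq2
  set D : V := h2 - h1 with hD
  obtain ⟨hb1, hb2⟩ := core_D A B t0 η M δ hBA hM hB hη0 hη1 hδ D h2 X3 (Y2 - Y1) (Z2 - Z1) τ t1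
    ht1 ((norm_sub_le _ _).trans (by linarith)) hX3
    ((norm_sub_le _ _).trans (by linarith)) heq3
  have hτ1 : |τ| ≤ 1 := by
    rw [hτ]
    have h3 : |t2 - t1| ≤ |t2 - t0| + |t1 - t0| := by
      have := abs_sub_le t2 t0 t1
      rwa [abs_sub_comm t0 t1] at this
    have h4 := hηk 0 (by norm_num)
    rw [pow_zero] at h4
    linarith
  have hτ0 := abs_nonneg τ
  have hω0 := abs_nonneg ω
  set u : ℝ := |τ| * |ω| with hu
  have hu0 : 0 ≤ u := by positivity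
  -- size of `D`
  have hc1 : ‖D‖ ≤ 8 * M ^ 3 * u + 16 * M ^ 3 * δ := by
    have h3 : |τ| * M * ‖h2‖ ≤ |τ| * M * (4 * M ^ 2 * (|ω| + δ)) := by gcongr
    have h4 : |τ| * M * (4 * M ^ 2 * (|ω| + δ)) = 4 * M ^ 3 * u + 4 * M ^ 3 * (|τ| * δ) := by
      rw [hu]; ring
    have h5 : |τ| * δ ≤ 1 * δ := mul_le_mul_of_nonneg_right hτ1 hδ
    have h6 : 4 * M ^ 3 * (|τ| * δ) ≤ 4 * M ^ 3 * (1 * δ) := by gcongr
    have h7 : M ^ 2 * δ ≤ M ^ 3 * δ := by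
      have : M ^ 2 ≤ M ^ 3 := pow_le_pow_right₀ hM (by norm_num)
      gcongr
    linarith
  -- `D` is close to `τ ω B² b`
  have hc2 : ‖D - (τ * ω) • B (B b)‖ ≤ 8 * M ^ 3 * δ + 25 * (η * M ^ 4) * u := by
    have h3 : D - (τ * ω) • B (B b) = (D + τ • B h2) - τ • B (h2 + ω • B b) := by
      rw [map_add, map_smul, smul_add, smul_smul]
      abel
    have h4 : ‖τ • B (h2 + ω • B b)‖ ≤ |τ| * (M * (3 * M ^ 2 * δ + 9 * η * M ^ 3 * |ω|)) := by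
      rw [norm_smul, Real.norm_eq_abs]
      exact mul_le_mul_of_nonneg_left ((B.le_opNorm _).trans
        (mul_le_mul hB ha2 (norm_nonneg _) hM0.le)) hτ0
    have h5 : |τ| * (M * (3 * M ^ 2 * δ + 9 * η * M ^ 3 * |ω|)) =
        3 * M ^ 3 * (|τ| * δ) + 9 * (η * M ^ 4) * u := by rw [hu]; ring
    have h6 : 3 * M ^ 3 * (|τ| * δ) ≤ 3 * M ^ 3 * δ := by
      have : |τ| * δ ≤ 1 * δ := mul_le_mul_of_nonneg_right hτ1 hδ
      have h7 : 3 * M ^ 3 * (|τ| * δ) ≤ 3 * M ^ 3 * (1 * δ) := by gcongr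
      linarith
    have h7 : 2 * M * η * ‖D‖ ≤ 2 * M * η * (8 * M ^ 3 * u + 16 * M ^ 3 * δ) := by gcongr
    have h8 : 2 * M * η * (8 * M ^ 3 * u + 16 * M ^ 3 * δ) =
        16 * (η * M ^ 4) * u + 32 * (η * M ^ 4) * δ := by ring
    have h9 : 32 * (η * M ^ 4) * δ ≤ 1 * δ := by
      have := hηk 4 (by norm_num)
      apply mul_le_mul_of_nonneg_right _ hδ
      nlinarith [mul_nonneg hη0 (by positivity : (0 : ℝ) ≤ M ^ 4)]
    have h10 : M ^ 2 * δ ≤ M ^ 3 * δ := by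
      have : M ^ 2 ≤ M ^ 3 := pow_le_pow_right₀ hM (by norm_num)
      gcongr
    have h11 : δ ≤ M ^ 3 * δ := by have := hMp 3; nlinarith
    calc ‖D - (τ * ω) • B (B b)‖ ≤ ‖D + τ • B h2‖ + ‖τ • B (h2 + ω • B b)‖ := by
          rw [h3]; exact norm_sub_le _ _
      _ ≤ _ := by linarith
  -- the scalar equation
  have hc3 : τ * ω * (1 + q (B (B b))) =
      (v2 - v1 - R - z) - q (D - (τ * ω) • B (B b)) := by
    have h3 : q (D - (τ * ω) • B (B b)) = q D - τ * ω * q (B (B b)) := by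
      rw [map_sub q D _, map_smul, smul_eq_mul]
    rw [heq4, h3]
    ring
  have hc4 : |τ * ω * (1 + q (B (B b)))| ≤ (2 * δ + η * ‖D‖ + 2 * M * δ) +
      M * (8 * M ^ 3 * δ + 25 * (η * M ^ 4) * u) := by
    rw [hc3]
    have h3 : |q (D - (τ * ω) • B (B b))| ≤ M * (8 * M ^ 3 * δ + 25 * (η * M ^ 4) * u) := by
      have := q.le_opNorm (D - (τ * ω) • B (B b))
      rw [Real.norm_eq_abs] at this
      exact this.trans (mul_le_mul hq hc2 (norm_nonneg _) hM0.le)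
    have h4 : |v2 - v1 - R - z| ≤ 2 * δ + η * ‖D‖ + 2 * M * δ := by
      have e1 := abs_sub (v2 - v1 - R) z
      have e2 := abs_sub (v2 - v1) R
      have e3 := abs_sub v2 v1
      linarith
    exact (abs_sub _ _).trans (add_le_add h4 h3)
  have hc5 : |τ * ω * (1 + q (B (B b)))| = u * |1 + q (B (B b))| := by
    rw [abs_mul, abs_mul]
  rw [hc5] at hc4
  have hc6 : u ≤ M * (u * |1 + q (B (B b))|) := by nlinarith
  have hc7 : M * (u * |1 + q (B (B b))|) ≤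
      M * ((2 * δ + η * ‖D‖ + 2 * M * δ) + M * (8 * M ^ 3 * δ + 25 * (η * M ^ 4) * u)) := by
    gcongr
  have hc8 : η * ‖D‖ ≤ 8 * (η * M ^ 3) * u + 16 * (η * M ^ 3) * δ := by
    have : η * ‖D‖ ≤ η * (8 * M ^ 3 * u + 16 * M ^ 3 * δ) := by gcongr
    linarith
  have hc9 : 16 * (η * M ^ 3) * δ ≤ δ := by
    have := hηk 3 (by norm_num)
    have h3 : 16 * (η * M ^ 3) ≤ 1 := by
      nlinarith [mul_nonneg hη0 (by positivity : (0 : ℝ) ≤ M ^ 3)]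
    nlinarith
  have hc10 : M * ((2 * δ + η * ‖D‖ + 2 * M * δ) +
      M * (8 * M ^ 3 * δ + 25 * (η * M ^ 4) * u)) ≤ 13 * M ^ 5 * δ + 33 * (η * M ^ 6) * u := by
    have e1 : M * δ ≤ M ^ 5 * δ := by
      have : M ^ 1 ≤ M ^ 5 := pow_le_pow_right₀ hM (by norm_num)
      rw [pow_one] at this
      gcongr
    have e2 : M ^ 2 * δ ≤ M ^ 5 * δ := by
      have : M ^ 2 ≤ M ^ 5 := pow_le_pow_right₀ hM (by norm_num)
      gcongr
    have e3 : η * M ^ 4 * u ≤ η * M ^ 6 * u := by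
      have : M ^ 4 ≤ M ^ 6 := pow_le_pow_right₀ hM (by norm_num)
      gcongr
    have e4 : M * (η * ‖D‖) ≤ 8 * (η * M ^ 4) * u + M * δ := by
      have : M * (η * ‖D‖) ≤ M * (8 * (η * M ^ 3) * u + δ) := by
        gcongr
        linarith
      calc M * (η * ‖D‖) ≤ M * (8 * (η * M ^ 3) * u + δ) := this
        _ = _ := by ring
    calc M * ((2 * δ + η * ‖D‖ + 2 * M * δ) + M * (8 * M ^ 3 * δ + 25 * (η * M ^ 4) * u))
        = 2 * (M * δ) + M * (η * ‖D‖) + 2 * (M ^ 2 * δ) + 8 * (M ^ 5 * δ) +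
          25 * (η * M ^ 6 * u) := by ring
      _ ≤ 2 * (M ^ 5 * δ) + (8 * (η * M ^ 6 * u) + M ^ 5 * δ) + 2 * (M ^ 5 * δ) +
          8 * (M ^ 5 * δ) + 25 * (η * M ^ 6 * u) := by
          have e5 : 8 * (η * M ^ 4) * u ≤ 8 * (η * M ^ 6 * u) := by linarith
          linarith
      _ = _ := by ring
  have hc11 : 33 * (η * M ^ 6) * u ≤ (1 / 2) * u := by
    apply mul_le_mul_of_nonneg_right _ hu0
    nlinarith [mul_nonneg hη0 (by positivity : (0 : ℝ) ≤ M ^ 6)]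
  linarith

end Pool.Agent.H64.KK
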