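import Mathlib

set_option autoImplicit false

/-!
# The line family
-/

open MeasureTheory Set Metric

namespace Pool.Agent.H64.KK

/-- Euclidean space `ℝ^m`. -/
abbrev E (m : ℕ) : Type := EuclideanSpace ℝ (Fin m)

/-- The point at height `t` of the line in `ℝ^(m+2)` through `(0, p (s, w), r w s)` with
direction `(1, s, w)`, that is `(t, p (s, w) + t s, r w s + t w)`. -/
noncomputable def pt {m : ℕ} (p : E m × ℝ → E m) (r : ℝ → E m → ℝ) (s : E m) (w t : ℝ) :
    E (m + 2) :=
  WithLp.toLp 2 (Fin.cons t (Fin.snoc (α := fun _ => ℝ) (fun i => p (s, w) i + t * s i)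
    (r w s + t * w)))

variable {m : ℕ} (p : E m × ℝ → E m) (r : ℝ → E m → ℝ)

theorem dist_sq_pt (s s' : E m) (w w' t t' : ℝ) :
    dist (pt p r s w t) (pt p r s' w' t') ^ 2 = (t - t') ^ 2 +
      ‖(p (s, w) + t • s) - (p (s', w') + t' • s')‖ ^ 2 +
      ((r w s + t * w) - (r w' s' + t' * w')) ^ 2 := by
  rw [dist_eq_norm, EuclideanSpace.real_norm_sq_eq, EuclideanSpace.real_norm_sq_eq,
    Fin.sum_univ_succ, Fin.sum_univ_castSucc]
  simp only [pt, PiLp.sub_apply, PiLp.add_apply, PiLp.smul_apply, smul_eq_mul, Fin.cons_zero,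
    Fin.cons_succ, Fin.snoc_castSucc, Fin.snoc_last]
  ring

theorem abs_t_le {s s' : E m} {w w' t t' δ : ℝ}
    (h : dist (pt p r s w t) (pt p r s' w' t') ≤ δ) : |t - t'| ≤ δ := by
  have h0 : 0 ≤ δ := dist_nonneg.trans h
  have h1 := dist_sq_pt p r s s' w w' t t'
  have h2 : dist (pt p r s w t) (pt p r s' w' t') ^ 2 ≤ δ ^ 2 := by
    have := dist_nonneg (x := pt p r s w t) (y := pt p r s' w' t')
    gcongr
  apply abs_le_of_sq_le_sq _ h0
  nlinarith [sq_nonneg ‖(p (s, w) + t • s) - (p (s', w') + t' • s')‖,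
    sq_nonneg ((r w s + t * w) - (r w' s' + t' * w'))]

theorem norm_F_le {s s' : E m} {w w' t t' δ : ℝ}
    (h : dist (pt p r s w t) (pt p r s' w' t') ≤ δ) :
    ‖(p (s, w) + t • s) - (p (s', w') + t' • s')‖ ≤ δ := by
  have h0 : 0 ≤ δ := dist_nonneg.trans h
  have h1 := dist_sq_pt p r s s' w w' t t'
  have h2 : dist (pt p r s w t) (pt p r s' w' t') ^ 2 ≤ δ ^ 2 := by
    have := dist_nonneg (x := pt p r s w t) (y := pt p r s' w' t')
    gcongr
  have h4 : ‖(p (s, w) + t • s) - (p (s', w') + t' • s')‖ ^ 2 ≤ δ ^ 2 := by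
    nlinarith [sq_nonneg (t - t'), sq_nonneg ((r w s + t * w) - (r w' s' + t' * w'))]
  have h3 := abs_le_of_sq_le_sq h4 h0
  rwa [abs_norm] at h3

theorem abs_G_le {s s' : E m} {w w' t t' δ : ℝ}
    (h : dist (pt p r s w t) (pt p r s' w' t') ≤ δ) :
    |(r w s + t * w) - (r w' s' + t' * w')| ≤ δ := by
  have h0 : 0 ≤ δ := dist_nonneg.trans h
  have h1 := dist_sq_pt p r s s' w w' t t'
  have h2 : dist (pt p r s w t) (pt p r s' w' t') ^ 2 ≤ δ ^ 2 := by
    have := dist_nonneg (x := pt p r s w t) (y := pt p r s' w' t')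
    gcongr
  apply abs_le_of_sq_le_sq _ h0
  nlinarith [sq_nonneg ‖(p (s, w) + t • s) - (p (s', w') + t' • s')‖,
    sq_nonneg (t - t')]

theorem continuousOn_pt (w : ℝ) (S : Set (E m)) (T : Set ℝ)
    (hp : ContinuousOn (fun s => p (s, w)) S) (hr : ContinuousOn (r w) S) :
    ContinuousOn (fun z : E m × ℝ => pt p r z.1 w z.2) (S ×ˢ T) := by
  unfold pt
  have hp' : ContinuousOn (fun z : E m × ℝ => p (z.1, w)) (S ×ˢ T) :=
    hp.comp continuousOn_fst (fun z hz => hz.1)
  have hr' : ContinuousOn (fun z : E m × ℝ => r w z.1) (S ×ˢ T) :=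
    hr.comp continuousOn_fst (fun z hz => hz.1)
  refine (PiLp.continuous_toLp 2 _).comp_continuousOn ?_
  rw [continuousOn_pi]
  intro i
  refine Fin.cases ?_ (fun i => ?_) i
  · simp only [Fin.cons_zero]
    exact continuousOn_snd
  · simp only [Fin.cons_succ]
    refine Fin.lastCases ?_ (fun i => ?_) i
    · simp only [Fin.snoc_last]
      exact hr'.add (continuousOn_snd.mul continuousOn_const)
    · simp only [Fin.snoc_castSucc]
      refine ContinuousOn.add ?_ (continuousOn_snd.mul ?_)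
      · exact (EuclideanSpace.proj i).continuous.comp_continuousOn hp'
      · exact (EuclideanSpace.proj i).continuous.comp_continuousOn continuousOn_fst

end Pool.Agent.H64.KK
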