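import Mathlib
import Pool.Agent.H64.KK.Geom
import Pool.Agent.H64.KK.Pt

set_option autoImplicit false

/-!
# Cells of a line family and their correlation bounds
-/

open MeasureTheory Set Metric Filter Topology

namespace Pool.Agent.H64.KK

/-- Linear data of a cell. -/
structure CellData (V : Type*) [NormedAddCommGroup V] [NormedSpace ℝ V] where
  A : V →L[ℝ] V
  B : V →L[ℝ] V
  b : V
  q : V →L[ℝ] ℝ
  t0 : ℝ
  M : ℝ
  η : ℝ
  hBA : ∀ x, B (A x + t0 • x) = x
  hM : 1 ≤ M
  hB : ‖B‖ ≤ M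
  hb : ‖b‖ ≤ M
  hq : ‖q‖ ≤ M
  hS : 1 ≤ M * |1 + q (B (B b))|
  hη0 : 0 < η
  hη : 100 * (η * M ^ 6) ≤ 1

/-- The functions `p` and `r w` are close to affine on the cell. -/
structure CellSets {V : Type*} [NormedAddCommGroup V] [NormedSpace ℝ V] (c : CellData V)
    (p : V × ℝ → V) (r : ℝ → V → ℝ) (W : Set ℝ) (S : ℝ → Set V) : Prop where
  hp : ∀ w ∈ W, ∀ s ∈ S w, ∀ w' ∈ W, ∀ s' ∈ S w',
    ‖p (s', w') - p (s, w) - c.A (s' - s) - (w' - w) • c.b‖ ≤ c.η * (‖s' - s‖ + |w' - w|)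
  hr : ∀ w ∈ W, ∀ s ∈ S w, ∀ s' ∈ S w, |r w s' - r w s - c.q (s' - s)| ≤ c.η * ‖s' - s‖
  hs : ∀ w ∈ W, ∀ s ∈ S w, ‖s‖ ≤ c.M
  hw : ∀ w ∈ W, |w| ≤ c.M

variable {m : ℕ} {c : CellData (E m)} {p : E m × ℝ → E m} {r : ℝ → E m → ℝ} {W : Set ℝ}
  {S : ℝ → Set (E m)}

theorem two_point (h : CellSets c p r W S) {w w' : ℝ} (hw : w ∈ W) (hw' : w' ∈ W) {δ : ℝ}
    (hδ : 0 ≤ δ) {s s1 s2 : E m} (hs : s ∈ S w) (hs1 : s1 ∈ S w') (hs2 : s2 ∈ S w')
    {t1 t2 t1' t2' : ℝ} (ht1 : |t1 - c.t0| ≤ c.η) (ht2 : |t2 - c.t0| ≤ c.η)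
    (h1 : dist (pt p r s w t1) (pt p r s1 w' t1') ≤ δ)
    (h2 : dist (pt p r s w t2) (pt p r s2 w' t2') ≤ δ) :
    |t2 - t1| * |w' - w| ≤ 26 * c.M ^ 5 * δ := by
  have hM0 : 0 < c.M := by linarith [c.hM]
  have a1 := abs_t_le p r h1
  have a2 := abs_t_le p r h2
  have b1 := norm_F_le p r h1
  have b2 := norm_F_le p r h2
  have c1 := abs_G_le p r h1
  have c2 := abs_G_le p r h2
  have hZ : ∀ (x : E m) (u : ℝ), ‖x‖ ≤ c.M → |u| ≤ δ → ‖u • x‖ ≤ c.M * δ := by
    intro x u hx hu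
    rw [norm_smul, Real.norm_eq_abs, mul_comm]
    exact mul_le_mul hx hu (abs_nonneg _) hM0.le
  refine core_pair c.A c.B c.b c.q c.t0 c.η c.M δ c.hBA c.hM c.hB c.hb c.hq c.hS c.hη0.le c.hη
    hδ (s1 - s) (s2 - s)
    (p (s1, w') - p (s, w) - c.A (s1 - s) - (w' - w) • c.b)
    (p (s2, w') - p (s, w) - c.A (s2 - s) - (w' - w) • c.b)
    (p (s2, w') - p (s1, w') - c.A (s2 - s1))
    ((p (s1, w') + t1' • s1) - (p (s, w) + t1 • s))
    ((p (s2, w') + t2' • s2) - (p (s, w) + t2 • s))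
    ((t1' - t1) • s1) ((t2' - t2) • s2) (w' - w) (t2 - t1) t1 t2
    (r w' s2 - r w' s1 - c.q (s2 - s1))
    ((r w' s1 + t1' * w') - (r w s + t1 * w)) ((r w' s2 + t2' * w') - (r w s + t2 * w))
    ((t2' - t2) * w' - (t1' - t1) * w')
    ht1 ht2 rfl ?_ ?_ ?_ ?_ ?_ ?_ ?_ ?_ ?_ ?_ ?_ ?_ ?_ ?_ ?_
  · rw [norm_sub_rev]; exact b1
  · rw [norm_sub_rev]; exact b2
  · exact h.hp w hw s hs w' hw' s1 hs1
  · exact h.hp w hw s hs w' hw' s2 hs2
  · have := h.hp w' hw' s1 hs1 w' hw' s2 hs2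
    simpa using this
  · exact hZ s1 _ (h.hs w' hw' s1 hs1) (by rw [abs_sub_comm]; exact a1)
  · exact hZ s2 _ (h.hs w' hw' s2 hs2) (by rw [abs_sub_comm]; exact a2)
  · simp only [smul_sub, sub_smul, map_sub]
    abel
  · simp only [smul_sub, sub_smul, map_sub]
    abel
  · simp only [smul_sub, sub_smul, map_sub]
    abel
  · have := h.hr w' hw' s1 hs1 s2 hs2
    simpa using this
  · rw [abs_sub_comm]; exact c1
  · rw [abs_sub_comm]; exact c2
  · have e1 : |(t2' - t2) * w'| ≤ c.M * δ := by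
      rw [abs_mul, mul_comm]
      exact mul_le_mul (h.hw w' hw') (by rw [abs_sub_comm]; exact a2) (abs_nonneg _) hM0.le
    have e2 : |(t1' - t1) * w'| ≤ c.M * δ := by
      rw [abs_mul, mul_comm]
      exact mul_le_mul (h.hw w' hw') (by rw [abs_sub_comm]; exact a1) (abs_nonneg _) hM0.le
    have := abs_sub ((t2' - t2) * w') ((t1' - t1) * w')
    linarith
  · simp only [map_sub]
    ring

theorem section_bound (h : CellSets c p r W S) {w' : ℝ} (hw' : w' ∈ W) {δ : ℝ}
    (hδ : 0 ≤ δ) {s1 s2 : E m} (hs1 : s1 ∈ S w') (hs2 : s2 ∈ S w')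
    {t1 t2 : ℝ} (ht1 : |t1 - c.t0| ≤ c.η)
    (h1 : dist (pt p r s2 w' t2) (pt p r s1 w' t1) ≤ 2 * δ) :
    ‖s2 - s1‖ ≤ 8 * c.M ^ 2 * δ := by
  have hM0 : 0 < c.M := by linarith [c.hM]
  have a1 := abs_t_le p r h1
  have b1 := norm_F_le p r h1
  have hη1 : 8 * (c.η * c.M) ≤ 1 := by
    have : c.M ^ 1 ≤ c.M ^ 6 := pow_le_pow_right₀ c.hM (by norm_num)
    rw [pow_one] at this
    nlinarith [c.hη, c.hη0]
  obtain ⟨-, hD⟩ := core_D c.A c.B c.t0 c.η c.M δ c.hBA c.hM c.hB c.hη0.le hη1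
    hδ (s2 - s1) 0 (p (s2, w') - p (s1, w') - c.A (s2 - s1))
    ((p (s2, w') + t2 • s2) - (p (s1, w') + t1 • s1))
    ((t2 - t1) • s2) 0 t1 ht1 b1
    (by
      have := h.hp w' hw' s1 hs1 w' hw' s2 hs2
      simpa using this)
    (by
      rw [norm_smul, Real.norm_eq_abs]
      have e1 := h.hs w' hw' s2 hs2
      calc |t2 - t1| * ‖s2‖ ≤ (2 * δ) * c.M := by gcongr
        _ = _ := by ring)
    (by
      simp only [smul_sub, sub_smul, map_sub, smul_zero]
      abel)
  simp only [abs_zero, zero_mul, zero_add] at hD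
  linarith

/-- The compact cell in the parameter space `(s, t)`. -/
def Z (c : CellData (E m)) (S : ℝ → Set (E m)) (w : ℝ) : Set (E m × ℝ) :=
  S w ×ˢ closedBall c.t0 c.η

/-- The correlation set. -/
def G (c : CellData (E m)) (p : E m × ℝ → E m) (r : ℝ → E m → ℝ) (S : ℝ → Set (E m))
    (w w' δ : ℝ) : Set ((E m × ℝ) × (E m × ℝ)) :=
  (Z c S w ×ˢ Z c S w') ∩
    (fun x : (E m × ℝ) × (E m × ℝ) => dist (pt p r x.1.1 w x.1.2) (pt p r x.2.1 w' x.2.2)) ⁻¹'
      Iic δ

theorem continuousOn_p (h : CellSets c p r W S) {w : ℝ} (hw : w ∈ W) :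
    ContinuousOn (fun s => p (s, w)) (S w) := by
  have h1 : LipschitzOnWith (Real.toNNReal (‖c.A‖ + c.η)) (fun s => p (s, w)) (S w) := by
    refine LipschitzOnWith.of_dist_le_mul fun s' hs' s hs => ?_
    have h2 := h.hp w hw s hs w hw s' hs'
    simp only [sub_self, zero_smul, sub_zero, abs_zero, add_zero] at h2
    rw [dist_eq_norm, dist_eq_norm]
    have h3 : p (s', w) - p (s, w) =
        (p (s', w) - p (s, w) - c.A (s' - s)) + c.A (s' - s) := by abel
    rw [h3]
    refine (norm_add_le _ _).trans ?_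
    have h4 := c.A.le_opNorm (s' - s)
    rw [Real.coe_toNNReal _ (add_nonneg (norm_nonneg _) c.hη0.le)]
    linarith
  exact h1.continuousOn

theorem continuousOn_r (h : CellSets c p r W S) {w : ℝ} (hw : w ∈ W) :
    ContinuousOn (r w) (S w) := by
  have h1 : LipschitzOnWith (Real.toNNReal (‖c.q‖ + c.η)) (r w) (S w) := by
    refine LipschitzOnWith.of_dist_le_mul fun s' hs' s hs => ?_
    have h2 := h.hr w hw s hs s' hs'
    rw [Real.dist_eq, dist_eq_norm]
    have h3 : r w s' - r w s = (r w s' - r w s - c.q (s' - s)) + c.q (s' - s) := by ring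
    rw [h3]
    refine (abs_add_le _ _).trans ?_
    have h4 := c.q.le_opNorm (s' - s)
    rw [Real.norm_eq_abs] at h4
    rw [Real.coe_toNNReal _ (add_nonneg (norm_nonneg _) c.hη0.le)]
    linarith
  exact h1.continuousOn

theorem isCompact_Z {w : ℝ} (hc : IsCompact (S w)) : IsCompact (Z c S w) :=
  hc.prod (isCompact_closedBall _ _)

theorem isCompact_G (h : CellSets c p r W S) {w w' : ℝ} (hw : w ∈ W) (hw' : w' ∈ W)
    (hc : IsCompact (S w)) (hc' : IsCompact (S w')) (δ : ℝ) :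
    IsCompact (G c p r S w w' δ) := by
  have h1 := isCompact_Z (c := c) hc
  have h2 := isCompact_Z (c := c) hc'
  refine (h1.prod h2).of_isClosed_subset ?_ inter_subset_left
  refine ContinuousOn.preimage_isClosed_of_isClosed ?_ (h1.prod h2).isClosed isClosed_Iic
  have h3 := continuousOn_pt p r w (S w) (closedBall c.t0 c.η) (continuousOn_p h hw)
    (continuousOn_r h hw)
  have h4 := continuousOn_pt p r w' (S w') (closedBall c.t0 c.η) (continuousOn_p h hw')
    (continuousOn_r h hw')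
  exact continuous_dist.comp_continuousOn
    ((h3.comp continuousOn_fst (fun x hx => hx.1)).prodMk
      (h4.comp continuousOn_snd (fun x hx => hx.2)))

/-- First constant. -/
noncomputable def κ1 (c : CellData (E m)) : ℝ :=
  (8 * c.M ^ 2) ^ (m + 1) * (volume (ball (0 : E m × ℝ) 1)).toReal

/-- Second constant. -/
noncomputable def κ2 (c : CellData (E m)) : ℝ :=
  (volume (closedBall (0 : E m) c.M ×ˢ closedBall c.t0 c.η)).toReal

/-- Third constant. -/
noncomputable def κ3 (c : CellData (E m)) : ℝ :=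
  (52 * c.M ^ 5) * (volume (closedBall (0 : E m) c.M)).toReal

theorem G_le (h : CellSets c p r W S) {w w' : ℝ} (hw : w ∈ W) (hw' : w' ∈ W)
    (hc : IsCompact (S w)) (hc' : IsCompact (S w')) {δ : ℝ} (hδ : 0 < δ) :
    ((volume : Measure (E m × ℝ)).prod volume) (G c p r S w w' δ) ≤
      ENNReal.ofReal (κ1 c * δ ^ (m + 1)) * volume (Prod.fst '' (G c p r S w w' δ)) := by
  have hM0 : 0 < c.M := by linarith [c.hM]
  have hGc := isCompact_G h hw hw' hc hc' δ
  have hPc : IsCompact (Prod.fst '' (G c p r S w w' δ)) := hGc.image continuous_fst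
  rw [Measure.prod_apply hGc.measurableSet]
  have h1 : ∀ z : E m × ℝ, volume (Prod.mk z ⁻¹' (G c p r S w w' δ)) ≤
      (Prod.fst '' (G c p r S w w' δ)).indicator
        (fun _ => ENNReal.ofReal (κ1 c * δ ^ (m + 1))) z := by
    intro z
    by_cases hz : z ∈ Prod.fst '' (G c p r S w w' δ)
    · rw [indicator_of_mem hz]
      obtain ⟨⟨z0, z1⟩, hz1, rfl⟩ := hz
      have hsub : Prod.mk z0 ⁻¹' (G c p r S w w' δ) ⊆ closedBall z1 (8 * c.M ^ 2 * δ) := by
        intro z2 hz2
        have e1 : dist (pt p r z0.1 w z0.2) (pt p r z1.1 w' z1.2) ≤ δ := hz1.2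
        have e2 : dist (pt p r z0.1 w z0.2) (pt p r z2.1 w' z2.2) ≤ δ := hz2.2
        have e3 : dist (pt p r z2.1 w' z2.2) (pt p r z1.1 w' z1.2) ≤ 2 * δ := by
          have := dist_triangle_left (pt p r z2.1 w' z2.2) (pt p r z1.1 w' z1.2)
            (pt p r z0.1 w z0.2)
          linarith
        have e4 : z1.1 ∈ S w' := hz1.1.2.1
        have e5 : z2.1 ∈ S w' := hz2.1.2.1
        have e6 : |z1.2 - c.t0| ≤ c.η := by
          have := hz1.1.2.2
          rwa [mem_closedBall, Real.dist_eq] at this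
        have e7 := section_bound h hw' hδ.le e4 e5 e6 e3
        have e8 := abs_t_le p r e3
        rw [mem_closedBall, Prod.dist_eq, max_le_iff]
        refine ⟨by rw [dist_eq_norm]; exact e7, ?_⟩
        rw [Real.dist_eq]
        have : 1 ≤ c.M ^ 2 := one_le_pow₀ c.hM
        nlinarith
      refine (measure_mono hsub).trans ?_
      have : (volume : Measure (E m × ℝ)).IsAddHaarMeasure := by
        rw [Measure.volume_eq_prod]; infer_instance
      rw [Measure.addHaar_closedBall _ _ (by positivity)]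
      have hfr : Module.finrank ℝ (E m × ℝ) = m + 1 := by simp
      rw [hfr]
      unfold κ1
      have hb : volume (ball (0 : E m × ℝ) 1) =
          ENNReal.ofReal (volume (ball (0 : E m × ℝ) 1)).toReal :=
        (ENNReal.ofReal_toReal measure_ball_lt_top.ne).symm
      rw [hb, ← ENNReal.ofReal_mul (by positivity)]
      refine ENNReal.ofReal_le_ofReal (le_of_eq ?_)
      rw [ENNReal.toReal_ofReal ENNReal.toReal_nonneg]
      ring
    · rw [indicator_of_notMem hz]
      have : Prod.mk z ⁻¹' (G c p r S w w' δ) = ∅ := by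
        rw [eq_empty_iff_forall_notMem]
        intro z' hz'
        exact hz ⟨(z, z'), hz', rfl⟩
      rw [this, measure_empty]
  refine (lintegral_mono h1).trans ?_
  rw [lintegral_indicator hPc.measurableSet, setLIntegral_const]

theorem P_le2 {w w' : ℝ} (hs : ∀ s ∈ S w, ‖s‖ ≤ c.M) (δ : ℝ) :
    volume (Prod.fst '' (G c p r S w w' δ)) ≤ ENNReal.ofReal (κ2 c) := by
  unfold κ2
  rw [ENNReal.ofReal_toReal]
  · refine measure_mono ?_
    rintro _ ⟨⟨z0, z1⟩, hz1, rfl⟩
    exact ⟨by simpa using hs _ hz1.1.1.1, hz1.1.1.2⟩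
  · exact ((isCompact_closedBall _ _).prod (isCompact_closedBall _ _)).measure_lt_top.ne

theorem P_le3 (h : CellSets c p r W S) {w w' : ℝ} (hw : w ∈ W) (hw' : w' ∈ W)
    (hc : IsCompact (S w)) (hc' : IsCompact (S w')) {δ : ℝ} (hδ : 0 < δ) :
    ENNReal.ofReal |w' - w| * volume (Prod.fst '' (G c p r S w w' δ)) ≤
      ENNReal.ofReal (κ3 c * δ) := by
  have hM0 : 0 < c.M := by linarith [c.hM]
  by_cases hww : w' = w
  · simp [hww]
  have hω : 0 < |w' - w| := abs_pos.2 (sub_ne_zero.2 hww)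
  have hGc := isCompact_G h hw hw' hc hc' δ
  have hPc : IsCompact (Prod.fst '' (G c p r S w w' δ)) := hGc.image continuous_fst
  have h0 : volume (Prod.fst '' (G c p r S w w' δ)) ≤
      ENNReal.ofReal (52 * c.M ^ 5 * δ / |w' - w|) * volume (closedBall (0 : E m) c.M) := by
    rw [Measure.volume_eq_prod, Measure.prod_apply hPc.measurableSet]
    have h1 : ∀ s : E m, volume (Prod.mk s ⁻¹' (Prod.fst '' (G c p r S w w' δ))) ≤
        (closedBall (0 : E m) c.M).indicator
          (fun _ => ENNReal.ofReal (52 * c.M ^ 5 * δ / |w' - w|)) s := by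
      intro s
      by_cases hne : (Prod.mk s ⁻¹' (Prod.fst '' (G c p r S w w' δ))).Nonempty
      · obtain ⟨t1, ht1⟩ := hne
        obtain ⟨⟨⟨s', t1'⟩, ⟨s1, t1''⟩⟩, hz1, hz1'⟩ := ht1
        simp only [Prod.mk.injEq] at hz1'
        obtain ⟨rfl, rfl⟩ := hz1'
        have hs : s' ∈ S w := hz1.1.1.1
        have hs1 : s1 ∈ S w' := hz1.1.2.1
        rw [indicator_of_mem (by simpa using h.hs w hw s' hs)]
        have hsub : (Prod.mk s' ⁻¹' (Prod.fst '' (G c p r S w w' δ))) ⊆
            closedBall t1' (26 * c.M ^ 5 * δ / |w' - w|) := by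
          rintro t2 ⟨⟨⟨s'', t2'⟩, ⟨s2, t2''⟩⟩, hz2, hz2'⟩
          simp only [Prod.mk.injEq] at hz2'
          obtain ⟨rfl, rfl⟩ := hz2'
          have e1 : |t1' - c.t0| ≤ c.η := by
            have := hz1.1.1.2
            rwa [mem_closedBall, Real.dist_eq] at this
          have e2 : |t2' - c.t0| ≤ c.η := by
            have := hz2.1.1.2
            rwa [mem_closedBall, Real.dist_eq] at this
          have e3 := two_point h hw hw' hδ.le hs hs1 hz2.1.2.1 e1 e2 hz1.2 hz2.2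
          rw [mem_closedBall, Real.dist_eq, le_div_iff₀ hω]
          exact e3
        refine (measure_mono hsub).trans ?_
        rw [Real.volume_closedBall]
        refine ENNReal.ofReal_le_ofReal (le_of_eq ?_)
        ring
      · rw [not_nonempty_iff_eq_empty.1 hne, measure_empty]
        exact zero_le
    refine (lintegral_mono h1).trans ?_
    rw [lintegral_indicator measurableSet_closedBall, setLIntegral_const]
  calc ENNReal.ofReal |w' - w| * volume (Prod.fst '' (G c p r S w w' δ))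
      ≤ ENNReal.ofReal |w' - w| *
        (ENNReal.ofReal (52 * c.M ^ 5 * δ / |w' - w|) * volume (closedBall (0 : E m) c.M)) := by
        gcongr
    _ = ENNReal.ofReal (κ3 c * δ) := by
        have hb : volume (closedBall (0 : E m) c.M) =
            ENNReal.ofReal (volume (closedBall (0 : E m) c.M)).toReal :=
          (ENNReal.ofReal_toReal measure_closedBall_lt_top.ne).symm
        rw [hb, ← ENNReal.ofReal_mul (by positivity), ← ENNReal.ofReal_mul (by positivity)]
        congr 1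
        unfold κ3
        field_simp

/-- The correlation bounds. -/
theorem pair_measure (h : CellSets c p r W S) {w w' : ℝ} (hw : w ∈ W) (hw' : w' ∈ W)
    (hc : IsCompact (S w)) (hc' : IsCompact (S w')) {δ : ℝ} (hδ : 0 < δ) :
    ((volume : Measure (E m × ℝ)).prod volume).real (G c p r S w w' δ) ≤
        (κ1 c * (κ2 c + κ3 c)) * δ ^ (m + 1) ∧
      |w - w'| * ((volume : Measure (E m × ℝ)).prod volume).real (G c p r S w w' δ) ≤
        (κ1 c * (κ2 c + κ3 c)) * δ ^ (m + 1 + 1) := by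
  have hM0 : 0 < c.M := by linarith [c.hM]
  have k1 : 0 ≤ κ1 c := by unfold κ1; positivity
  have k2 : 0 ≤ κ2 c := by unfold κ2; positivity
  have k3 : 0 ≤ κ3 c := by unfold κ3; positivity
  have h1 := G_le h hw hw' hc hc' hδ
  have h2 := P_le2 (p := p) (r := r) (w' := w') (h.hs w hw) δ
  have h3 := P_le3 h hw hw' hc hc' hδ
  constructor
  · have h4 : ((volume : Measure (E m × ℝ)).prod volume) (G c p r S w w' δ) ≤
        ENNReal.ofReal (κ1 c * δ ^ (m + 1) * κ2 c) := by
      rw [ENNReal.ofReal_mul (by positivity)]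
      exact h1.trans (by gcongr)
    refine (ENNReal.toReal_le_of_le_ofReal (by positivity) h4).trans ?_
    have : 0 ≤ κ1 c * δ ^ (m + 1) * κ3 c := by positivity
    nlinarith
  · have h4 : ENNReal.ofReal |w - w'| *
        ((volume : Measure (E m × ℝ)).prod volume) (G c p r S w w' δ) ≤
        ENNReal.ofReal (κ1 c * δ ^ (m + 1) * (κ3 c * δ)) := by
      rw [ENNReal.ofReal_mul (by positivity), abs_sub_comm]
      calc ENNReal.ofReal |w' - w| *
            ((volume : Measure (E m × ℝ)).prod volume) (G c p r S w w' δ)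
          ≤ ENNReal.ofReal |w' - w| * (ENNReal.ofReal (κ1 c * δ ^ (m + 1)) *
              volume (Prod.fst '' (G c p r S w w' δ))) := by gcongr
        _ = ENNReal.ofReal (κ1 c * δ ^ (m + 1)) * (ENNReal.ofReal |w' - w| *
              volume (Prod.fst '' (G c p r S w w' δ))) := by ring
        _ ≤ _ := by gcongr
    have h5 := ENNReal.toReal_le_of_le_ofReal (by positivity) h4
    rw [ENNReal.toReal_mul, ENNReal.toReal_ofReal (abs_nonneg _)] at h5
    refine h5.trans ?_
    have : 0 ≤ κ1 c * δ ^ (m + 1) * δ * κ2 c := by positivity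
    have e : κ1 c * (κ2 c + κ3 c) * δ ^ (m + 1 + 1) =
      κ1 c * δ ^ (m + 1) * (κ3 c * δ) + κ1 c * δ ^ (m + 1) * δ * κ2 c := by ring
    rw [e]
    linarith

end Pool.Agent.H64.KK
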