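import Mathlib
import Pool.Agent.H64.KK.Cover

set_option autoImplicit false

/-!
# An `L²` engine for lower bounds of Hausdorff dimension

A family of finite measures `ν w` on a metric space, indexed by a set of real parameters `w` of
positive outer measure, whose mutual correlations at scale `δ` are at most
`C δ^d min (1, δ / |w - w'|)`; every set charged by all `ν w` has Hausdorff dimension at
least `d + 1`.  No measurability in the parameter is assumed.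
-/

open MeasureTheory Set Filter Topology ENNReal NNReal Metric

namespace Pool.Agent.H64.KK

/-- Discrete `L²` inequality. -/
theorem l2_discrete {X : Type*} [MeasurableSpace X] {κ : Type*} (S : Finset κ)
    (ν : κ → Measure X) [∀ k, IsFiniteMeasure (ν k)] (ι : Finset ℕ) (B : ℕ → Set X)
    (hB : ∀ i ∈ ι, MeasurableSet (B i)) (R : Set (X × X))
    (hR : ∀ i ∈ ι, ∀ x ∈ B i, ∀ y ∈ B i, (x, y) ∈ R) :
    (∑ k ∈ S, (ν k).real (⋃ i ∈ ι, B i)) ^ 2 ≤
      ι.card * ∑ k ∈ S, ∑ k' ∈ S, ((ν k).prod (ν k')).real R := by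
  classical
  set D : ℕ → Set X := fun i => if i ∈ ι then B i else ∅ with hD
  have hDm : ∀ i, MeasurableSet (D i) := by
    intro i
    simp only [hD]
    split_ifs with h
    · exact hB i h
    · exact MeasurableSet.empty
  set E : ℕ → Set X := disjointed D with hE
  have hEm : ∀ i, MeasurableSet (E i) := fun i => MeasurableSet.disjointed hDm i
  have hEd : Pairwise (Function.onFun Disjoint E) := disjoint_disjointed D
  have hED : ∀ i, E i ⊆ D i := fun i => disjointed_subset D i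
  have hEB : ∀ i, E i ⊆ B i := by
    intro i
    refine (hED i).trans ?_
    simp only [hD]
    split_ifs
    · exact subset_rfl
    · exact empty_subset _
  have hEe : ∀ i, i ∉ ι → E i = ∅ := by
    intro i hi
    have := hED i
    simp only [hD, hi, if_false] at this
    exact subset_empty_iff.1 this
  have hU : (⋃ i ∈ ι, B i) = ⋃ i ∈ ι, E i := by
    have h1 : (⋃ i, E i) = ⋃ i, D i := iUnion_disjointed
    have h2 : (⋃ i ∈ ι, B i) = ⋃ i, D i := by
      ext x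
      simp only [hD, mem_iUnion]
      constructor
      · rintro ⟨i, hi, hx⟩
        exact ⟨i, by simpa [hi] using hx⟩
      · rintro ⟨i, hx⟩
        by_cases hi : i ∈ ι
        · exact ⟨i, hi, by simpa [hi] using hx⟩
        · simp [hi] at hx
    rw [h2, ← h1]
    ext x
    simp only [mem_iUnion]
    constructor
    · rintro ⟨i, hx⟩
      by_cases hi : i ∈ ι
      · exact ⟨i, hi, hx⟩
      · rw [hEe i hi] at hx
        exact absurd hx (notMem_empty _)
    · rintro ⟨i, _, hx⟩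
      exact ⟨i, hx⟩
  have h1 : ∀ k, (ν k).real (⋃ i ∈ ι, B i) = ∑ i ∈ ι, (ν k).real (E i) := by
    intro k
    rw [hU]
    exact measureReal_biUnion_finset (fun i _ j _ hij => hEd hij) (fun i _ => hEm i)
  have h2 : (∑ k ∈ S, (ν k).real (⋃ i ∈ ι, B i)) = ∑ i ∈ ι, ∑ k ∈ S, (ν k).real (E i) := by
    simp only [h1]
    exact Finset.sum_comm
  rw [h2]
  refine (sq_sum_le_card_mul_sum_sq).trans ?_
  refine mul_le_mul_of_nonneg_left ?_ (by positivity)
  have h3 : ∀ i, (∑ k ∈ S, (ν k).real (E i)) ^ 2 =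
      ∑ k ∈ S, ∑ k' ∈ S, ((ν k).prod (ν k')).real (E i ×ˢ E i) := by
    intro i
    rw [sq, Finset.sum_mul_sum]
    refine Finset.sum_congr rfl fun k _ => Finset.sum_congr rfl fun k' _ => ?_
    rw [measureReal_prod_prod]
  simp only [h3]
  rw [Finset.sum_comm]
  refine Finset.sum_le_sum fun k _ => ?_
  rw [Finset.sum_comm]
  refine Finset.sum_le_sum fun k' _ => ?_
  rw [← measureReal_biUnion_finset (s := ι) (f := fun i => E i ×ˢ E i)
    (μ := (ν k).prod (ν k'))]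
  · refine measureReal_mono ?_
    intro x hx
    simp only [mem_iUnion] at hx
    obtain ⟨i, hi, hx⟩ := hx
    exact hR i hi x.1 (hEB i hx.1) x.2 (hEB i hx.2)
  · intro i _ j _ hij
    exact Disjoint.set_prod_left (hEd hij) _ _
  · intro i _
    exact (hEm i).prod (hEm i)

/-- Pigeonhole principle for outer measures. -/
theorem pigeon {α : Type*} [MeasurableSpace α] (μ : Measure α) (A : Set α) (V : ℕ → Set α)
    (h : A ⊆ ⋃ j, V j) (c : ℝ) (hc : 0 < c) (hA : ENNReal.ofReal c ≤ μ A) (a : ℕ → ℝ)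
    (ha0 : ∀ j, 0 ≤ a j) (ha : HasSum a 1) : ∃ j, ENNReal.ofReal (c / 2 * a j) ≤ μ (V j) := by
  by_contra hcon
  push Not at hcon
  have h1 : μ A ≤ ∑' j, ENNReal.ofReal (c / 2 * a j) :=
    (measure_mono h).trans ((measure_iUnion_le V).trans
      (ENNReal.tsum_le_tsum fun j => (hcon j).le))
  have h2 : ∑' j, ENNReal.ofReal (c / 2 * a j) = ENNReal.ofReal (c / 2) := by
    rw [← ENNReal.ofReal_tsum_of_nonneg (fun j => mul_nonneg (by positivity) (ha0 j))
      (ha.summable.mul_left _), (ha.mul_left (c / 2)).tsum_eq, mul_one]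
  rw [h2] at h1
  have h3 : ENNReal.ofReal (c / 2) < ENNReal.ofReal c :=
    (ENNReal.ofReal_lt_ofReal_iff hc).2 (by linarith)
  exact absurd (hA.trans h1) (not_le.2 h3)

/-- The sum of `1 / (|k - k'| + 1)` over a set of integers in an interval. -/
theorem sum_inv_le (S : Finset ℤ) (L : ℕ) (k : ℤ)
    (hS : ∀ k' ∈ S, (k - k').natAbs < L) :
    ∑ k' ∈ S, (1 : ℝ) / ((k - k').natAbs + 1) ≤ 2 * (1 + Real.log L) := by
  classical
  have h1 : ∑ k' ∈ S, (1 : ℝ) / ((k - k').natAbs + 1) =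
      ∑ i ∈ Finset.range L, ∑ k' ∈ S with (k - k').natAbs = i, (1 : ℝ) / ((k - k').natAbs + 1) := by
    rw [Finset.sum_fiberwise_of_maps_to]
    intro k' hk'
    exact Finset.mem_range.2 (hS k' hk')
  rw [h1]
  have h2 : ∀ i ∈ Finset.range L, ∑ k' ∈ S with (k - k').natAbs = i,
      (1 : ℝ) / ((k - k').natAbs + 1) ≤ 2 * (1 / ((i : ℝ) + 1)) := by
    intro i _
    have h3 : ∑ k' ∈ S with (k - k').natAbs = i, (1 : ℝ) / ((k - k').natAbs + 1) =
        ∑ k' ∈ S with (k - k').natAbs = i, (1 : ℝ) / ((i : ℝ) + 1) := by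
      refine Finset.sum_congr rfl fun k' hk' => ?_
      rw [(Finset.mem_filter.1 hk').2]
    rw [h3, Finset.sum_const, nsmul_eq_mul]
    refine mul_le_mul_of_nonneg_right ?_ (by positivity)
    have h4 : (S.filter fun k' => (k - k').natAbs = i) ⊆ {k - i, k + i} := by
      intro k' hk'
      have := (Finset.mem_filter.1 hk').2
      simp only [Finset.mem_insert, Finset.mem_singleton]
      omega
    have h5 := (Finset.card_le_card h4).trans Finset.card_le_two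
    exact_mod_cast h5
  refine (Finset.sum_le_sum h2).trans ?_
  rw [← Finset.mul_sum]
  refine mul_le_mul_of_nonneg_left ?_ (by norm_num)
  have h6 := harmonic_le_one_add_log L
  have h7 : ((harmonic L : ℚ) : ℝ) = ∑ i ∈ Finset.range L, (1 / ((i : ℝ) + 1)) := by
    simp [harmonic]
  rw [← h7]
  exact h6

/-- Counting of `δ`-separated parameters. -/
theorem select (W : Set ℝ) (a : ℝ) (hWa : W ⊆ Icc a (a + 1)) (j : ℕ) :
    ∃ (S : Finset ℤ) (p : ℤ → ℝ), (∀ k ∈ S, p k ∈ W) ∧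
      (∀ k ∈ S, ∀ k' ∈ S, (k - k').natAbs < 2 ^ j + 2) ∧
      (∀ k ∈ S, ∀ k' ∈ S, (((k - k').natAbs : ℝ) - 1) * (1 / 2) ^ j ≤ |p k - p k'|) ∧
      (volume W) ≤ ENNReal.ofReal (S.card * (1 / 2) ^ j) := by
  classical
  set δ : ℝ := (1 / 2) ^ j with hδ
  have hδ0 : 0 < δ := by positivity
  set I : ℤ → Set ℝ := fun k => Ico (k * δ) ((k + 1) * δ) with hI
  set S : Finset ℤ := (Finset.Icc ⌊a / δ⌋ ⌊(a + 1) / δ⌋).filter
    (fun k => (W ∩ I k).Nonempty) with hS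
  have hne : ∀ k ∈ S, (W ∩ I k).Nonempty := fun k hk => (Finset.mem_filter.1 hk).2
  set p : ℤ → ℝ := fun k => if h : (W ∩ I k).Nonempty then h.some else 0 with hp
  have hpm : ∀ k ∈ S, p k ∈ W ∩ I k := by
    intro k hk
    have h := hne k hk
    simp only [hp, dif_pos h]
    exact h.some_mem
  have hmemI : ∀ x : ℝ, x ∈ I ⌊x / δ⌋ := by
    intro x
    simp only [hI, mem_Ico]
    have h1 := Int.floor_le (x / δ)
    have h2 := Int.lt_floor_add_one (x / δ)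
    rw [le_div_iff₀ hδ0] at h1
    rw [div_lt_iff₀ hδ0] at h2
    exact ⟨h1, h2⟩
  refine ⟨S, p, fun k hk => (hpm k hk).1, ?_, ?_, ?_⟩
  · intro k hk k' hk'
    have h1 := Finset.mem_Icc.1 (Finset.mem_filter.1 hk).1
    have h2 := Finset.mem_Icc.1 (Finset.mem_filter.1 hk').1
    have h3 : ((⌊(a + 1) / δ⌋ : ℤ) : ℝ) - ⌊a / δ⌋ < 2 ^ j + 1 := by
      have h4 := Int.floor_le ((a + 1) / δ)
      have h5 := Int.lt_floor_add_one (a / δ)
      have h6 : (a + 1) / δ = a / δ + 2 ^ j := by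
        rw [add_div]
        congr 1
        simp [hδ]
      linarith
    have h4 : ⌊(a + 1) / δ⌋ - ⌊a / δ⌋ < (2 : ℤ) ^ j + 1 := by exact_mod_cast h3
    have h5 : ((2 : ℤ) ^ j) = ((2 ^ j : ℕ) : ℤ) := by push_cast; rfl
    rw [h5] at h4
    omega
  · intro k hk k' hk'
    have h1 := (hpm k hk).2
    have h2 := (hpm k' hk').2
    simp only [hI, mem_Ico] at h1 h2
    have h3 : ((k - k').natAbs : ℝ) = |(k : ℝ) - k'| := by
      rw [Nat.cast_natAbs]
      push_cast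
      rfl
    rw [h3]
    rcases le_total (k : ℝ) k' with h | h
    · rw [abs_of_nonpos (by linarith)]
      have : (-((k : ℝ) - k') - 1) * δ ≤ p k' - p k := by nlinarith
      exact this.trans (by rw [abs_sub_comm]; exact le_abs_self _)
    · rw [abs_of_nonneg (by linarith)]
      have : (((k : ℝ) - k') - 1) * δ ≤ p k - p k' := by nlinarith
      exact this.trans (le_abs_self _)
  · have h1 : W ⊆ ⋃ k ∈ S, I k := by
      intro x hx
      simp only [mem_iUnion]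
      refine ⟨⌊x / δ⌋, ?_, hmemI x⟩
      rw [hS, Finset.mem_filter, Finset.mem_Icc]
      have := hWa hx
      refine ⟨⟨?_, ?_⟩, ⟨x, hx, hmemI x⟩⟩
      · exact Int.floor_le_floor (by have := this.1; gcongr)
      · exact Int.floor_le_floor (by have := this.2; gcongr)
    refine (measure_mono h1).trans ((measure_biUnion_finset_le _ _).trans ?_)
    have h2 : ∀ k ∈ S, volume (I k) = ENNReal.ofReal δ := by
      intro k _
      simp only [hI, Real.volume_Ico]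
      congr 1
      ring
    rw [Finset.sum_congr rfl h2, Finset.sum_const, nsmul_eq_mul,
      ENNReal.ofReal_mul (by positivity), ENNReal.ofReal_natCast]

/-- The key inequality at one dyadic scale. -/
theorem scale_ineq {X : Type*} [MetricSpace X] [MeasurableSpace X] [BorelSpace X]
    (ν : ℝ → Measure X) [∀ w, IsFiniteMeasure (ν w)] (W : Set ℝ) (a : ℝ)
    (hWa : W ⊆ Icc a (a + 1)) (d : ℕ) (C : ℝ) (hC : 0 ≤ C)
    (h1 : ∀ w ∈ W, ∀ w' ∈ W, ∀ δ : ℝ, 0 < δ →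
      ((ν w).prod (ν w')).real {x | dist x.1 x.2 ≤ δ} ≤ C * δ ^ d)
    (h2 : ∀ w ∈ W, ∀ w' ∈ W, ∀ δ : ℝ, 0 < δ →
      |w - w'| * ((ν w).prod (ν w')).real {x | dist x.1 x.2 ≤ δ} ≤ C * δ ^ (d + 1))
    (j : ℕ) (ι : Finset ℕ) (x : ℕ → X) (r : ℕ → ℝ) (hr : ∀ i ∈ ι, r i ≤ (1 / 2) ^ j)
    (v : ℝ) (hv0 : 0 ≤ v) (hv : ∀ w ∈ W, v ≤ (ν w).real (⋃ i ∈ ι, closedBall (x i) (r i)))
    (γ : ℝ) (hγ0 : 0 < γ) (hγ : ENNReal.ofReal γ ≤ volume W) :
    γ * 2 ^ j * v ^ 2 ≤ ι.card * (12 * C * 2 ^ d * ((1 / 2) ^ j) ^ d * (j + 3)) := by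
  obtain ⟨S, p, hpW, hSL, hsep, hvol⟩ := select W a hWa j
  set δ : ℝ := (1 / 2) ^ j with hδ
  have hδ0 : 0 < δ := by positivity
  have hN : γ ≤ S.card * δ := by
    have := hγ.trans hvol
    rwa [ENNReal.ofReal_le_ofReal_iff (by positivity)] at this
  have hN0 : (0 : ℝ) < S.card := by
    by_contra hcon
    have : (S.card : ℝ) = 0 := le_antisymm (not_lt.1 hcon) (by positivity)
    rw [this] at hN
    linarith
  have hN2 : γ * 2 ^ j ≤ S.card := by
    have h3 : δ * 2 ^ j = 1 := by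
      rw [hδ, ← mul_pow]; norm_num
    calc γ * 2 ^ j ≤ (S.card * δ) * 2 ^ j := by gcongr
      _ = S.card := by rw [mul_assoc, h3, mul_one]
  set R : Set (X × X) := {x | dist x.1 x.2 ≤ 2 * δ} with hR
  have hl2 := l2_discrete S (fun k => ν (p k)) ι (fun i => closedBall (x i) (r i))
    (fun i _ => measurableSet_closedBall) R (by
      intro i hi y hy z hz
      have h3 := mem_closedBall.1 hy
      have h4 := mem_closedBall'.1 hz
      have h5 := dist_triangle y (x i) z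
      have h6 := hr i hi
      show dist y z ≤ 2 * δ
      linarith)
  have hlow : (S.card : ℝ) * v ≤ ∑ k ∈ S, (ν (p k)).real (⋃ i ∈ ι, closedBall (x i) (r i)) := by
    rw [← nsmul_eq_mul]
    exact Finset.card_nsmul_le_sum _ _ _ (fun k hk => hv _ (hpW k hk))
  have hpair : ∀ k ∈ S, ∀ k' ∈ S, ((ν (p k)).prod (ν (p k'))).real R ≤
      6 * C * 2 ^ d * δ ^ d * (1 / ((k - k').natAbs + 1)) := by
    intro k hk k' hk'
    have hm0 : (0 : ℝ) ≤ ((ν (p k)).prod (ν (p k'))).real R := measureReal_nonneg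
    have h3 := h1 _ (hpW k hk) _ (hpW k' hk') (2 * δ) (by positivity)
    have h4 := h2 _ (hpW k hk) _ (hpW k' hk') (2 * δ) (by positivity)
    have h5 := hsep k hk k' hk'
    change ((ν (p k)).prod (ν (p k'))).real R ≤ _ at h3
    change _ * ((ν (p k)).prod (ν (p k'))).real R ≤ _ at h4
    set P := ((ν (p k)).prod (ν (p k'))).real R with hP
    set n := (k - k').natAbs with hn
    rw [mul_one_div, le_div_iff₀ (by positivity)]
    rw [mul_pow] at h3 h4
    have hCd : 0 ≤ C * (2 ^ d * δ ^ d) := by positivity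
    by_cases hn1 : n ≤ 1
    · have hn2 : (n : ℝ) ≤ 1 := by exact_mod_cast hn1
      have : P * ((n : ℝ) + 1) ≤ C * (2 ^ d * δ ^ d) * 2 := by
        apply mul_le_mul h3 (by linarith) (by positivity) hCd
      nlinarith
    · have hn2 : (2 : ℝ) ≤ n := by
        have : 2 ≤ n := by omega
        exact_mod_cast this
      have h6 : ((n : ℝ) - 1) * δ * P ≤ C * (2 ^ (d + 1) * δ ^ (d + 1)) :=
        (mul_le_mul_of_nonneg_right h5 hm0).trans h4
      have h7 : ((n : ℝ) - 1) * P ≤ 2 * (C * (2 ^ d * δ ^ d)) := by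
        have h8 : ((n : ℝ) - 1) * P * δ ≤ 2 * (C * (2 ^ d * δ ^ d)) * δ := by
          calc ((n : ℝ) - 1) * P * δ = ((n : ℝ) - 1) * δ * P := by ring
            _ ≤ C * (2 ^ (d + 1) * δ ^ (d + 1)) := h6
            _ = 2 * (C * (2 ^ d * δ ^ d)) * δ := by ring
        exact le_of_mul_le_mul_right h8 hδ0
      have h9 : P * ((n : ℝ) + 1) ≤ 3 * (((n : ℝ) - 1) * P) := by nlinarith
      calc P * ((n : ℝ) + 1) ≤ 3 * (((n : ℝ) - 1) * P) := h9
        _ ≤ 3 * (2 * (C * (2 ^ d * δ ^ d))) := by linarith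
        _ = 6 * C * 2 ^ d * δ ^ d := by ring
  have hlog : Real.log ((2 ^ j + 2 : ℕ) : ℝ) ≤ j + 2 := by
    have h3 : ((2 ^ j + 2 : ℕ) : ℝ) ≤ 2 ^ (j + 2) := by
      push_cast
      have : (1 : ℝ) ≤ 2 ^ j := one_le_pow₀ (by norm_num)
      rw [pow_add]
      linarith
    have h4 : Real.log (2 ^ (j + 2)) ≤ j + 2 := by
      rw [Real.log_pow]
      push_cast
      have := Real.log_two_lt_d9
      nlinarith
    exact (Real.log_le_log (by positivity) h3).trans h4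
  have hsum : ∑ k ∈ S, ∑ k' ∈ S, ((ν (p k)).prod (ν (p k'))).real R ≤
      S.card * (6 * C * 2 ^ d * δ ^ d * (2 * (j + 3))) := by
    rw [← nsmul_eq_mul]
    refine Finset.sum_le_card_nsmul _ _ _ fun k hk => ?_
    refine (Finset.sum_le_sum fun k' hk' => hpair k hk k' hk').trans ?_
    rw [← Finset.mul_sum]
    refine mul_le_mul_of_nonneg_left ?_ (by positivity)
    refine (sum_inv_le S (2 ^ j + 2) k (fun k' hk' => hSL k hk k' hk')).trans ?_
    linarith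
  have hfin : ((S.card : ℝ) * v) ^ 2 ≤
      ι.card * (S.card * (6 * C * 2 ^ d * δ ^ d * (2 * (j + 3)))) := by
    calc ((S.card : ℝ) * v) ^ 2
        ≤ (∑ k ∈ S, (ν (p k)).real (⋃ i ∈ ι, closedBall (x i) (r i))) ^ 2 := by gcongr
      _ ≤ _ := hl2
      _ ≤ _ := by gcongr
  have hfin2 : (S.card : ℝ) * v ^ 2 ≤
      ι.card * (12 * C * 2 ^ d * δ ^ d * (j + 3)) := by
    have h3 : (S.card : ℝ) * v ^ 2 * S.card ≤
      ι.card * (12 * C * 2 ^ d * δ ^ d * (j + 3)) * S.card := by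
      calc (S.card : ℝ) * v ^ 2 * S.card = ((S.card : ℝ) * v) ^ 2 := by ring
        _ ≤ _ := hfin
        _ = _ := by ring
    exact le_of_mul_le_mul_right h3 hN0
  calc γ * 2 ^ j * v ^ 2 ≤ S.card * v ^ 2 := by gcongr
    _ ≤ _ := hfin2

/-- Uniform lower bound of the masses on a subset of positive outer measure. -/
theorem uniform_mass {X : Type*} [MeasurableSpace X]
    (ν : ℝ → Measure X) [∀ w, IsFiniteMeasure (ν w)] (W : Set ℝ)
    (hW : 0 < volume W) (K : Set X) (hK : ∀ w ∈ W, 0 < ν w K) :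
    ∃ c : ℝ, 0 < c ∧ ∃ W1 : Set ℝ, W1 ⊆ W ∧
      0 < volume W1 ∧ ∀ w ∈ W1, ENNReal.ofReal c ≤ ν w K := by
  by_contra hno
  push Not at hno
  have h3 : ∀ n : ℕ, volume {w ∈ W | ENNReal.ofReal (1 / ((n : ℝ) + 1)) ≤ ν w K} = 0 := by
    intro n
    by_contra h4
    obtain ⟨w, hw, hw2⟩ := hno (1 / ((n : ℝ) + 1)) (by positivity)
      {w ∈ W | ENNReal.ofReal (1 / ((n : ℝ) + 1)) ≤ ν w K} (fun w hw => hw.1)
      (pos_iff_ne_zero.2 h4)
    exact absurd hw.2 (not_le.2 hw2)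
  have h4 : W ⊆ ⋃ n : ℕ, {w ∈ W | ENNReal.ofReal (1 / ((n : ℝ) + 1)) ≤ ν w K} := by
    intro w hw
    have h5 : 0 < (ν w).real K := ENNReal.toReal_pos (hK w hw).ne' (measure_ne_top _ _)
    obtain ⟨n, hn⟩ := exists_nat_one_div_lt h5
    refine mem_iUnion.2 ⟨n, hw, ?_⟩
    exact (ENNReal.ofReal_le_ofReal hn.le).trans ENNReal.ofReal_toReal_le
  have h5 := (measure_mono h4).trans (measure_iUnion_le (μ := volume) _)
  simp only [h3, tsum_zero] at h5
  exact absurd h5 (not_le.2 hW)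

/-- **Covering numbers.** -/
theorem engine_count {X : Type*} [MetricSpace X] [MeasurableSpace X] [BorelSpace X]
    (ν : ℝ → Measure X) [∀ w, IsFiniteMeasure (ν w)] (W : Set ℝ) (a : ℝ)
    (hWa : W ⊆ Icc a (a + 1)) (hW : 0 < volume W) (d : ℕ) (C : ℝ) (hC : 0 ≤ C)
    (h1 : ∀ w ∈ W, ∀ w' ∈ W, ∀ δ : ℝ, 0 < δ →
      ((ν w).prod (ν w')).real {x | dist x.1 x.2 ≤ δ} ≤ C * δ ^ d)
    (h2 : ∀ w ∈ W, ∀ w' ∈ W, ∀ δ : ℝ, 0 < δ →
      |w - w'| * ((ν w).prod (ν w')).real {x | dist x.1 x.2 ≤ δ} ≤ C * δ ^ (d + 1))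
    (K : Set X) (hK : ∀ w ∈ W, 0 < ν w K) :
    ∃ c : ℝ, 0 < c ∧ ∀ (j : ℕ) (F : Finset X), K ⊆ ⋃ x ∈ F, closedBall x ((1 / 2) ^ j) →
      c * (2 ^ j) ^ (d + 1) / (j + 1) ≤ F.card := by
  classical
  obtain ⟨c, hc0, W1, hW1W, hW1, hcW⟩ := uniform_mass ν W hW K hK
  have hW1fin : volume W1 ≠ ∞ := by
    refine ne_top_of_le_ne_top ?_ (measure_mono (hW1W.trans hWa))
    simp
  set γ : ℝ := (volume W1).toReal with hγ
  have hγ0 : 0 < γ := ENNReal.toReal_pos hW1.ne' hW1fin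
  refine ⟨γ * c ^ 2 / (36 * (C + 1) * 2 ^ d), by positivity, ?_⟩
  intro j F hF
  -- enumerate the centres
  set n := F.card with hn
  let e : Fin n ≃ F := F.equivFin.symm
  obtain ⟨w0, hw0⟩ := nonempty_of_measure_ne_zero hW1.ne'
  have hKne : K.Nonempty := by
    have h3 : ν w0 K ≠ 0 := (hK w0 (hW1W hw0)).ne'
    exact nonempty_of_measure_ne_zero h3
  obtain ⟨y0, hy0⟩ := hKne
  let x : ℕ → X := fun i => if h : i < n then (e ⟨i, h⟩ : X) else y0
  have hcov : K ⊆ ⋃ i ∈ Finset.range n, closedBall (x i) ((1 / 2 : ℝ) ^ j) := by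
    intro y hy
    have h3 := hF hy
    simp only [mem_iUnion] at h3
    obtain ⟨z, hz, hyz⟩ := h3
    simp only [mem_iUnion]
    refine ⟨(e.symm ⟨z, hz⟩ : Fin n), Finset.mem_range.2 (e.symm ⟨z, hz⟩).2, ?_⟩
    have h4 : x (e.symm ⟨z, hz⟩ : Fin n) = z := by
      simp only [x, Fin.is_lt, dif_pos, Fin.eta, Equiv.apply_symm_apply]
    rw [h4]
    exact hyz
  have hkey := scale_ineq ν W1 a (hW1W.trans hWa) d C hC
    (fun w hw w' hw' => h1 w (hW1W hw) w' (hW1W hw'))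
    (fun w hw w' hw' => h2 w (hW1W hw) w' (hW1W hw')) j (Finset.range n) x
    (fun _ => (1 / 2 : ℝ) ^ j) (fun i _ => le_rfl) c hc0.le
    (fun w hw => by
      have h3 := (hcW w hw).trans (measure_mono hcov)
      rwa [← ofReal_measureReal (measure_ne_top _ _), ENNReal.ofReal_le_ofReal_iff
        measureReal_nonneg] at h3) γ hγ0 ENNReal.ofReal_toReal_le
  rw [Finset.card_range] at hkey
  have hj : (0 : ℝ) ≤ j := by positivity
  rw [div_le_iff₀ (by positivity), div_mul_eq_mul_div, div_le_iff₀ (by positivity)]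
  have h8 : ((1 / 2 : ℝ) ^ j) ^ d * (2 ^ j) ^ d = 1 := by
    rw [← mul_pow, ← mul_pow]
    norm_num
  have h9 : γ * c ^ 2 * (2 ^ j) ^ (d + 1) = (γ * 2 ^ j * c ^ 2) * (2 ^ j) ^ d := by ring
  rw [h9]
  have hD : (0 : ℝ) ≤ n * (12 * 2 ^ d) := by positivity
  calc (γ * 2 ^ j * c ^ 2) * (2 ^ j) ^ d
      ≤ (n * (12 * C * 2 ^ d * ((1 / 2) ^ j) ^ d * (j + 3))) * (2 ^ j) ^ d := by gcongr
    _ = n * (12 * 2 ^ d) * (C * (j + 3)) * (((1 / 2 : ℝ) ^ j) ^ d * (2 ^ j) ^ d) := by ring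
    _ = n * (12 * 2 ^ d) * (C * (j + 3)) := by rw [h8, mul_one]
    _ ≤ n * (12 * 2 ^ d) * (3 * (C + 1) * (j + 1)) := by
        apply mul_le_mul_of_nonneg_left _ hD
        nlinarith
    _ = n * (j + 1) * (36 * (C + 1) * 2 ^ d) := by ring

/-- No exponential sequence is bounded infinitely often by a linear one. -/
theorem no_exp_le (β D : ℝ) (hβ : 1 < β)
    (h : ∀ j0 : ℕ, ∃ j : ℕ, j0 ≤ j ∧ β ^ j ≤ D * (j + 3)) : False := by
  have h1 : Tendsto (fun n : ℕ => (n : ℝ) ^ 1 / β ^ n) atTop (𝓝 0) :=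
    tendsto_pow_const_div_const_pow_of_one_lt 1 hβ
  have hD : 0 < |D| + 1 := by positivity
  have h2 : ∀ᶠ n : ℕ in atTop, (n : ℝ) ^ 1 / β ^ n < 1 / (4 * (|D| + 1)) :=
    h1.eventually (gt_mem_nhds (by positivity))
  obtain ⟨N, hN⟩ := eventually_atTop.1 h2
  obtain ⟨j, hj, hj2⟩ := h (max N 3)
  have h3 := hN j ((le_max_left _ _).trans hj)
  have h4 : (3 : ℝ) ≤ j := by
    have : 3 ≤ j := (le_max_right _ _).trans hj
    exact_mod_cast this
  have hβj : 0 < β ^ j := by positivity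
  rw [div_lt_div_iff₀ hβj (by positivity), pow_one, one_mul] at h3
  have h5 : D * (j + 3) ≤ |D| * (j + 3) := by
    apply mul_le_mul_of_nonneg_right (le_abs_self D) (by positivity)
  have h6 := abs_nonneg D
  nlinarith

/-- **The engine.** -/
theorem engine {X : Type*} [MetricSpace X] [MeasurableSpace X] [BorelSpace X] [Nonempty X]
    (ν : ℝ → Measure X) [∀ w, IsFiniteMeasure (ν w)] (W : Set ℝ) (a : ℝ)
    (hWa : W ⊆ Icc a (a + 1)) (hW : 0 < volume W) (d : ℕ) (C : ℝ) (hC : 0 ≤ C)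
    (h1 : ∀ w ∈ W, ∀ w' ∈ W, ∀ δ : ℝ, 0 < δ →
      ((ν w).prod (ν w')).real {x | dist x.1 x.2 ≤ δ} ≤ C * δ ^ d)
    (h2 : ∀ w ∈ W, ∀ w' ∈ W, ∀ δ : ℝ, 0 < δ →
      |w - w'| * ((ν w).prod (ν w')).real {x | dist x.1 x.2 ≤ δ} ≤ C * δ ^ (d + 1))
    (K : Set X) (hK : ∀ w ∈ W, 0 < ν w K) : ((d + 1 : ℕ) : ℝ≥0∞) ≤ dimH K := by
  classical
  by_contra hcon
  rw [not_le] at hcon
  obtain ⟨s, hs1, hs2⟩ := ENNReal.lt_iff_exists_nnreal_btwn.1 hcon
  have hs0 : 0 < s := by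
    have : (0 : ℝ≥0∞) < s := lt_of_le_of_lt zero_le hs1
    exact_mod_cast this
  have hsd : (s : ℝ) < d + 1 := by
    have : (s : ℝ≥0∞) < ((d + 1 : ℕ) : ℝ≥0∞) := hs2
    have h3 : s < ((d + 1 : ℕ) : ℝ≥0) := by exact_mod_cast this
    have h4 : (s : ℝ) < (((d + 1 : ℕ) : ℝ≥0) : ℝ) := by exact_mod_cast h3
    simpa using h4
  have hs0' : (0 : ℝ) < s := by exact_mod_cast hs0
  obtain ⟨c, hc0, W1, hW1W, hW1, hcW⟩ := uniform_mass ν W hW K hK
  have hW1fin : volume W1 ≠ ∞ := by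
    refine ne_top_of_le_ne_top ?_ (measure_mono (hW1W.trans hWa))
    simp
  set γ : ℝ := (volume W1).toReal with hγ
  have hγ0 : 0 < γ := ENNReal.toReal_pos hW1.ne' hW1fin
  -- weights
  set ε : ℝ := (d + 1) - s with hε
  have hε0 : 0 < ε := by simp only [hε]; linarith
  set ρ : ℝ := (2 : ℝ) ^ (-(ε / 6)) with hρ
  have hρ0 : 0 < ρ := by positivity
  have hρ1 : ρ < 1 := Real.rpow_lt_one_of_one_lt_of_neg (by norm_num) (by linarith)
  set α : ℕ → ℝ := fun j => ρ ^ j * (1 - ρ) with hα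
  have hα0 : ∀ j, 0 < α j := fun j => mul_pos (by positivity) (by linarith)
  have hαs : HasSum α 1 := by
    have h3 := (hasSum_geometric_of_lt_one hρ0.le hρ1).mul_right (1 - ρ)
    rwa [inv_mul_cancel₀ (by linarith)] at h3
  set β : ℝ := (2 : ℝ) ^ (ε / 2) with hβ
  have hβ1 : 1 < β := Real.one_lt_rpow (by norm_num) (by linarith)
  -- contradiction from the scale inequality
  refine no_exp_le β ((12 * C * 2 ^ d * 2 ^ (s : ℝ)) /
    ((γ / 2) * (c / 2) ^ 2 * (1 - ρ) ^ 3)) hβ1 ?_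
  intro j0
  obtain ⟨x, r, hr, hcov, hsum⟩ := cover_of_dimH_lt hs0 hs1 (ρ := (1 / 2) ^ j0) (by positivity)
    (ε := 1) one_pos
  rw [ENNReal.ofReal_one] at hsum
  have hfin : ∀ j : ℕ, ∃ ι : Finset ℕ, (∀ i, i ∈ ι ↔ (1 / 2 : ℝ) ^ (j + 1) < r i ∧
      r i ≤ (1 / 2) ^ j) ∧ (ι.card : ℝ) ≤ 2 ^ ((s : ℝ) * (j + 1)) := by
    intro j
    have he : ENNReal.ofReal (((1 / 2 : ℝ) ^ (j + 1)) ^ (s : ℝ)) ≠ 0 := by
      have : 0 < ((1 / 2 : ℝ) ^ (j + 1)) ^ (s : ℝ) := by positivity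
      simpa using this
    obtain ⟨hf, hf2⟩ := ENNReal.finset_card_const_le_le_of_tsum_le ENNReal.one_ne_top hsum he
    have hsub : {i | (1 / 2 : ℝ) ^ (j + 1) < r i ∧ r i ≤ (1 / 2) ^ j} ⊆
        {i | ENNReal.ofReal (((1 / 2 : ℝ) ^ (j + 1)) ^ (s : ℝ)) ≤
          ENNReal.ofReal (r i ^ (s : ℝ))} := by
      intro i hi
      exact ENNReal.ofReal_le_ofReal (Real.rpow_le_rpow (by positivity) hi.1.le hs0'.le)
    have hff := hf.subset hsub
    refine ⟨hff.toFinset, fun i => by simp, ?_⟩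
    have h3 : hff.toFinset.card ≤ hf.toFinset.card :=
      Finset.card_le_card (by
        intro i hi
        rw [Set.Finite.mem_toFinset] at hi ⊢
        exact hsub hi)
    have h4 : (hf.toFinset.card : ℝ) ≤ 2 ^ ((s : ℝ) * (j + 1)) := by
      replace hf2 := hf2.trans_eq (one_div _)
      rw [← ENNReal.ofReal_inv_of_pos (by positivity)] at hf2
      have h5 : (hf.toFinset.card : ℝ) ≤ (((1 / 2 : ℝ) ^ (j + 1)) ^ (s : ℝ))⁻¹ := by
        have h6 : ENNReal.ofReal (hf.toFinset.card : ℝ) ≤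
            ENNReal.ofReal ((((1 / 2 : ℝ) ^ (j + 1)) ^ (s : ℝ))⁻¹) := by
          rw [ENNReal.ofReal_natCast]
          exact hf2
        rwa [ENNReal.ofReal_le_ofReal_iff (by positivity)] at h6
      refine h5.trans (le_of_eq ?_)
      rw [← Real.rpow_natCast, ← Real.rpow_mul (by norm_num), one_div,
        Real.inv_rpow (by norm_num), inv_inv]
      congr 1
      push_cast
      ring
    exact (by exact_mod_cast h3 : (hff.toFinset.card : ℝ) ≤ hf.toFinset.card).trans h4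
  choose ι hι hιc using hfin
  set V : ℕ → Set X := fun j => ⋃ i ∈ ι j, closedBall (x i) (r i) with hV
  have hKV : K ⊆ ⋃ j, V j := by
    intro y hy
    obtain ⟨i, hi⟩ := mem_iUnion.1 (hcov hy)
    obtain ⟨j, hj1, hj2⟩ := exists_nat_pow_near_of_lt_one (hr i).1
      ((hr i).2.trans (pow_le_one₀ (by norm_num) (by norm_num))) (y := (1 / 2 : ℝ))
      (by norm_num) (by norm_num)
    refine mem_iUnion.2 ⟨j, ?_⟩
    simp only [hV, mem_iUnion]
    exact ⟨i, (hι j i).2 ⟨hj1, hj2⟩, hi⟩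
  have hstep : ∀ w ∈ W1, ∃ j, ENNReal.ofReal (c / 2 * α j) ≤ ν w (V j) := fun w hw =>
    pigeon (ν w) K V hKV c hc0 (hcW w hw) α (fun j => (hα0 j).le) hαs
  have hWV : W1 ⊆ ⋃ j, {w ∈ W1 | ENNReal.ofReal (c / 2 * α j) ≤ ν w (V j)} := by
    intro w hw
    obtain ⟨j, hj⟩ := hstep w hw
    exact mem_iUnion.2 ⟨j, hw, hj⟩
  obtain ⟨j, hj⟩ := pigeon volume W1 _ hWV γ hγ0 ENNReal.ofReal_toReal_le α
    (fun j => (hα0 j).le) hαs
  set W2 : Set ℝ := {w ∈ W1 | ENNReal.ofReal (c / 2 * α j) ≤ ν w (V j)} with hW2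
  have hW2W : W2 ⊆ W := fun w hw => hW1W hw.1
  have hγj : 0 < γ / 2 * α j := mul_pos (by positivity) (hα0 j)
  have hj0 : j0 ≤ j := by
    have h3 : 0 < volume W2 := lt_of_lt_of_le (by simpa using hγj) hj
    obtain ⟨w, hw⟩ := nonempty_of_measure_ne_zero h3.ne'
    have h4 : 0 < ν w (V j) := lt_of_lt_of_le (by simpa using mul_pos (half_pos hc0) (hα0 j)) hw.2
    obtain ⟨y, hy⟩ := nonempty_of_measure_ne_zero h4.ne'
    simp only [hV, mem_iUnion] at hy
    obtain ⟨i, hi, -⟩ := hy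
    have h5 := ((hι j i).1 hi).1.trans_le (hr i).2
    have h6 := (pow_lt_pow_iff_right_of_lt_one₀ (by norm_num : (0 : ℝ) < 1 / 2)
      (by norm_num)).1 h5
    omega
  refine ⟨j, hj0, ?_⟩
  have hkey := scale_ineq ν W2 a (hW2W.trans hWa) d C hC
    (fun w hw w' hw' => h1 w (hW2W hw) w' (hW2W hw'))
    (fun w hw w' hw' => h2 w (hW2W hw) w' (hW2W hw')) j (ι j) x r
    (fun i hi => ((hι j i).1 hi).2) (c / 2 * α j) (by have := hα0 j; positivity)
    (fun w hw => by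
      have h3 := hw.2
      rw [← ofReal_measureReal (measure_ne_top _ _), ENNReal.ofReal_le_ofReal_iff
        measureReal_nonneg] at h3
      exact h3) (γ / 2 * α j) hγj hj
  -- numerics
  have hA : 0 < (γ / 2) * (c / 2) ^ 2 * (1 - ρ) ^ 3 := by
    have : 0 < 1 - ρ := by linarith
    positivity
  rw [div_mul_eq_mul_div, le_div_iff₀ hA]
  have h3 : γ / 2 * α j * 2 ^ j * (c / 2 * α j) ^ 2 =
      ((γ / 2) * (c / 2) ^ 2 * (1 - ρ) ^ 3) * ((ρ ^ j) ^ 3 * 2 ^ j) := by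
    simp only [hα]
    ring
  rw [h3] at hkey
  have h4 : ((ι j).card : ℝ) * (12 * C * 2 ^ d * ((1 / 2) ^ j) ^ d * (j + 3)) ≤
      2 ^ ((s : ℝ) * (j + 1)) * (12 * C * 2 ^ d * ((1 / 2) ^ j) ^ d * (j + 3)) :=
    mul_le_mul_of_nonneg_right (hιc j) (by positivity)
  have h5 := hkey.trans h4
  -- multiply by `2 ^ (d j) * 2 ^ (-s j)`
  have h6 : β ^ j = (ρ ^ j) ^ 3 * 2 ^ j * (2 ^ j) ^ d * ((2 : ℝ) ^ ((s : ℝ) * j))⁻¹ := by
    simp only [hβ, hρ]
    rw [← Real.rpow_neg (by norm_num), ← Real.rpow_natCast ((2 : ℝ) ^ (ε / 2)),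
      ← Real.rpow_mul (by norm_num), ← pow_mul, ← pow_mul, ← Real.rpow_natCast _ (j * 3),
      ← Real.rpow_natCast (2 : ℝ) (j * d), ← Real.rpow_natCast (2 : ℝ) j,
      ← Real.rpow_mul (by norm_num), ← Real.rpow_add (by norm_num),
      ← Real.rpow_add (by norm_num), ← Real.rpow_add (by norm_num)]
    congr 1
    push_cast
    simp only [hε]
    ring
  have h7 : (2 : ℝ) ^ ((s : ℝ) * (j + 1)) = 2 ^ ((s : ℝ) * j) * 2 ^ (s : ℝ) := by
    rw [← Real.rpow_add (by norm_num)]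
    congr 1
    ring
  have h8 : ((1 / 2 : ℝ) ^ j) ^ d * (2 ^ j) ^ d = 1 := by
    rw [← mul_pow, ← mul_pow]
    norm_num
  have hsj : 0 < (2 : ℝ) ^ ((s : ℝ) * j) := by positivity
  calc β ^ j * ((γ / 2) * (c / 2) ^ 2 * (1 - ρ) ^ 3)
      = (((γ / 2) * (c / 2) ^ 2 * (1 - ρ) ^ 3) * ((ρ ^ j) ^ 3 * 2 ^ j)) * (2 ^ j) ^ d *
          ((2 : ℝ) ^ ((s : ℝ) * j))⁻¹ := by rw [h6]; ring
    _ ≤ (2 ^ ((s : ℝ) * (j + 1)) * (12 * C * 2 ^ d * ((1 / 2) ^ j) ^ d * (j + 3))) *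
          (2 ^ j) ^ d * ((2 : ℝ) ^ ((s : ℝ) * j))⁻¹ := by gcongr
    _ = 12 * C * 2 ^ d * 2 ^ (s : ℝ) * (j + 3) * (((1 / 2) ^ j) ^ d * (2 ^ j) ^ d) *
          ((2 : ℝ) ^ ((s : ℝ) * j) * ((2 : ℝ) ^ ((s : ℝ) * j))⁻¹) := by rw [h7]; ring
    _ = 12 * C * 2 ^ d * 2 ^ (s : ℝ) * (j + 3) := by
        rw [h8, mul_inv_cancel₀ hsj.ne', mul_one, mul_one]

end Pool.Agent.H64.KK
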