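import Mathlib
import Pool.Agent.H64.KK.Pt

set_option autoImplicit false

/-!
# Good linear data: open, and co-finite in the height `t`
-/

open MeasureTheory Set Metric Filter Topology

namespace Pool.Agent.H64.KK

variable {m : ℕ}

/-- The space of linear data `(derivative of p, derivative of r w, height)`. -/
abbrev Y (m : ℕ) : Type := ((E m × ℝ) →L[ℝ] E m) × (E m →L[ℝ] ℝ) × ℝ

/-- `∂_s p`. -/
noncomputable def opA (P : (E m × ℝ) →L[ℝ] E m) : E m →L[ℝ] E m :=
  P.comp (ContinuousLinearMap.inl ℝ (E m) ℝ)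

/-- `∂_w p`. -/
noncomputable def vecb (P : (E m × ℝ) →L[ℝ] E m) : E m := P (0, 1)

/-- `∂_s p + t`. -/
noncomputable def opT (y : Y m) : E m →L[ℝ] E m := opA y.1 + y.2.2 • (1 : E m →L[ℝ] E m)

/-- The transversality number `1 + q ((A + t)⁻² b)`. -/
noncomputable def trv (y : Y m) : ℝ :=
  1 + y.2.1 (Ring.inverse (opT y) (Ring.inverse (opT y) (vecb y.1)))

/-- Good data. -/
def Good (y : Y m) : Prop := IsUnit (opT y) ∧ trv y ≠ 0

theorem continuous_opT : Continuous (opT (m := m)) := by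
  unfold opT opA
  fun_prop

theorem isOpen_Good : IsOpen {y : Y m | Good y} := by
  rw [isOpen_iff_mem_nhds]
  intro y hy
  obtain ⟨⟨u, hu⟩, hS⟩ := hy
  have h1 : ∀ᶠ y' in 𝓝 y, IsUnit (opT y') := by
    have := Units.isOpen (R := E m →L[ℝ] E m)
    have h2 := this.preimage (continuous_opT (m := m))
    exact h2.mem_nhds ⟨u, hu⟩
  have h2 : ContinuousAt (fun y' : Y m => Ring.inverse (opT y')) y := by
    have h3 : ContinuousAt Ring.inverse (opT y) := by
      rw [← hu]; exact NormedRing.inverse_continuousAt u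
    exact h3.comp continuous_opT.continuousAt
  have h3 : ContinuousAt (trv (m := m)) y := by
    unfold trv
    refine continuousAt_const.add ?_
    have hb : ContinuousAt (fun y' : Y m => vecb y'.1) y := by
      unfold vecb
      exact (by fun_prop : Continuous fun y' : Y m => y'.1 ((0 : E m), (1 : ℝ))).continuousAt
    have h4 : ContinuousAt (fun y' : Y m => Ring.inverse (opT y') (vecb y'.1)) y :=
      h2.clm_apply hb
    have h5 : ContinuousAt
        (fun y' : Y m => Ring.inverse (opT y') (Ring.inverse (opT y') (vecb y'.1))) y :=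
      h2.clm_apply h4
    exact (by fun_prop : Continuous fun y' : Y m => y'.2.1).continuousAt.clm_apply h5
  filter_upwards [h1, h3.eventually_ne hS] with y' a b using ⟨a, b⟩

/-- The polynomial matrix `X + M`. -/
noncomputable def polyMat (N : Matrix (Fin m) (Fin m) ℝ) :
    Matrix (Fin m) (Fin m) (Polynomial ℝ) := Matrix.charmatrix (-N)

theorem polyMat_eval (N : Matrix (Fin m) (Fin m) ℝ) (t : ℝ) :
    (Polynomial.evalRingHom t).mapMatrix (polyMat N) = N + t • 1 := by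
  ext i j
  simp only [polyMat, Matrix.charmatrix, RingHom.mapMatrix_apply, Matrix.map_apply,
    Matrix.sub_apply, Matrix.scalar_apply, Matrix.diagonal_apply, Matrix.add_apply,
    Matrix.smul_apply, Matrix.one_apply, Polynomial.coe_evalRingHom, Matrix.neg_apply]
  split_ifs <;> simp [add_comm]

/-- First polynomial, `det (t + N)`. -/
noncomputable def χ1 (N : Matrix (Fin m) (Fin m) ℝ) : Polynomial ℝ := (polyMat N).det

/-- Second polynomial. -/
noncomputable def χ2 (N : Matrix (Fin m) (Fin m) ℝ) (q b : Fin m → ℝ) : Polynomial ℝ :=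
  (χ1 N) ^ 2 + ∑ i, Polynomial.C (q i) *
    (((polyMat N).adjugate * (polyMat N).adjugate).mulVec (fun j => Polynomial.C (b j))) i

theorem χ1_eval (N : Matrix (Fin m) (Fin m) ℝ) (t : ℝ) : (χ1 N).eval t = (N + t • 1).det := by
  rw [← polyMat_eval, ← RingHom.map_det]
  rfl

theorem χ1_ne (N : Matrix (Fin m) (Fin m) ℝ) : χ1 N ≠ 0 :=
  (Matrix.charpoly_monic (-N)).ne_zero

theorem χ2_eval (N : Matrix (Fin m) (Fin m) ℝ) (q b : Fin m → ℝ) (t : ℝ) :
    (χ2 N q b).eval t = (N + t • 1).det ^ 2 +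
      ∑ i, q i * (((N + t • 1).adjugate * (N + t • 1).adjugate).mulVec b) i := by
  have h1 : (Polynomial.evalRingHom t).mapMatrix
      ((polyMat N).adjugate * (polyMat N).adjugate) =
      (N + t • 1).adjugate * (N + t • 1).adjugate := by
    rw [map_mul, RingHom.map_adjugate, polyMat_eval]
  unfold χ2
  rw [Polynomial.eval_add, Polynomial.eval_pow, χ1_eval, Polynomial.eval_finsetSum]
  congr 1
  refine Finset.sum_congr rfl fun i _ => ?_
  rw [Polynomial.eval_mul, Polynomial.eval_C]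
  congr 1
  rw [← h1]
  simp only [Matrix.mulVec, dotProduct, Polynomial.eval_finsetSum, Polynomial.eval_mul,
    Polynomial.eval_C, RingHom.mapMatrix_apply, Matrix.map_apply, Polynomial.coe_evalRingHom]

/-- The standard basis. -/
noncomputable def bas (m : ℕ) : Module.Basis (Fin m) ℝ (E m) :=
  (EuclideanSpace.basisFun (Fin m) ℝ).toBasis

/-- The matrix of an operator. -/
noncomputable def mat (L : E m →L[ℝ] E m) : Matrix (Fin m) (Fin m) ℝ :=
  LinearMap.toMatrix (bas m) (bas m) (L : E m →ₗ[ℝ] E m)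

/-- The operator with inverse matrix. -/
noncomputable def invOp (L : E m →L[ℝ] E m) : E m →L[ℝ] E m :=
  (Matrix.toLin (bas m) (bas m) (mat L)⁻¹).toContinuousLinearMap

theorem mat_opT (P : (E m × ℝ) →L[ℝ] E m) (q : E m →L[ℝ] ℝ) (t : ℝ) :
    mat (opT (P, q, t)) = mat (opA P) + t • 1 := by
  unfold mat opT
  have h1 : ((opA P + t • (1 : E m →L[ℝ] E m) : E m →L[ℝ] E m) : E m →ₗ[ℝ] E m) =
      (opA P : E m →ₗ[ℝ] E m) + t • LinearMap.id := by
    ext x
    simp
  rw [h1, map_add, map_smul, LinearMap.toMatrix_id]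

theorem invOp_spec (L : E m →L[ℝ] E m) (h : (mat L).det ≠ 0) :
    L * invOp L = 1 ∧ invOp L * L = 1 := by
  have hu : IsUnit (mat L).det := isUnit_iff_ne_zero.2 h
  have h1 : (L : E m →ₗ[ℝ] E m) = Matrix.toLin (bas m) (bas m) (mat L) := by
    unfold mat; rw [Matrix.toLin_toMatrix]
  have h2 : (L : E m →ₗ[ℝ] E m) ∘ₗ Matrix.toLin (bas m) (bas m) (mat L)⁻¹ = LinearMap.id := by
    rw [h1, ← Matrix.toLin_mul, Matrix.mul_nonsing_inv _ hu, Matrix.toLin_one]
  have h3 : Matrix.toLin (bas m) (bas m) (mat L)⁻¹ ∘ₗ (L : E m →ₗ[ℝ] E m) = LinearMap.id := by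
    conv_lhs => rw [h1]
    rw [← Matrix.toLin_mul, Matrix.nonsing_inv_mul _ hu, Matrix.toLin_one]
  constructor
  · ext1 x
    exact LinearMap.congr_fun h2 x
  · ext1 x
    exact LinearMap.congr_fun h3 x

theorem inverse_eq (L : E m →L[ℝ] E m) (h : (mat L).det ≠ 0) :
    IsUnit L ∧ Ring.inverse L = invOp L := by
  obtain ⟨h1, h2⟩ := invOp_spec L h
  exact ⟨⟨⟨L, invOp L, h1, h2⟩, rfl⟩, Ring.inverse_unit ⟨L, invOp L, h1, h2⟩⟩

theorem repr_invOp (L : E m →L[ℝ] E m) (x : E m) :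
    ((bas m).repr (invOp L x) : Fin m → ℝ) = (mat L)⁻¹.mulVec ((bas m).repr x) := by
  have h1 := LinearMap.toMatrix_mulVec_repr (bas m) (bas m)
    (Matrix.toLin (bas m) (bas m) (mat L)⁻¹) x
  rw [LinearMap.toMatrix_toLin] at h1
  exact h1.symm

theorem apply_q (q : E m →L[ℝ] ℝ) (x : E m) :
    q x = ∑ i, q (bas m i) * (bas m).repr x i := by
  conv_lhs => rw [← (bas m).sum_repr x]
  rw [map_sum]
  refine Finset.sum_congr rfl fun i _ => ?_
  rw [map_smul, smul_eq_mul, mul_comm]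

/-- `χ2` evaluates to `det² * trv`. -/
theorem χ2_eval_eq (P : (E m × ℝ) →L[ℝ] E m) (q : E m →L[ℝ] ℝ) (t : ℝ)
    (h : (mat (opT (P, q, t))).det ≠ 0) :
    (χ2 (mat (opA P)) (fun i => q (bas m i)) ((bas m).repr (vecb P))).eval t =
      (mat (opT (P, q, t))).det ^ 2 * trv (P, q, t) := by
  rw [χ2_eval, ← mat_opT P q t]
  obtain ⟨-, h2⟩ := inverse_eq _ h
  unfold trv
  rw [h2]
  set N := mat (opT (P, q, t)) with hN
  rw [apply_q q (invOp (opT (P, q, t)) (invOp (opT (P, q, t)) (vecb P)))]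
  rw [repr_invOp, repr_invOp, Matrix.mulVec_mulVec, ← hN]
  have h3 : N⁻¹ * N⁻¹ = (N.det ^ 2)⁻¹ • (N.adjugate * N.adjugate) := by
    rw [Matrix.inv_def, Ring.inverse_eq_inv', Matrix.smul_mul, Matrix.mul_smul, smul_smul]
    congr 1
    rw [sq, mul_inv]
  rw [h3, Matrix.smul_mulVec]
  simp only [Pi.smul_apply, smul_eq_mul]
  rw [mul_add, mul_one, Finset.mul_sum]
  congr 1
  refine Finset.sum_congr rfl fun i _ => ?_
  field_simp

/-- For large heights the data are good. -/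
theorem exists_good (P : (E m × ℝ) →L[ℝ] E m) (q : E m →L[ℝ] ℝ) :
    ∃ t : ℝ, (mat (opT (P, q, t))).det ≠ 0 ∧ trv (P, q, t) ≠ 0 := by
  have hfin : {t : ℝ | (χ1 (mat (opA P))).IsRoot t}.Finite :=
    Polynomial.finite_setOfPred_isRoot (χ1_ne _)
  obtain ⟨t, ht1, ht2⟩ : ∃ t : ℝ, ‖opA P‖ + 1 + ‖q‖ * ‖vecb P‖ < t ∧
      ¬ (χ1 (mat (opA P))).IsRoot t := by
    by_contra hcon
    push Not at hcon
    exact (Set.Ioi_infinite (‖opA P‖ + 1 + ‖q‖ * ‖vecb P‖)) (hfin.subset fun t ht => hcon t ht)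
  have hdet : (mat (opT (P, q, t))).det ≠ 0 := by
    rw [mat_opT, ← χ1_eval]
    exact ht2
  refine ⟨t, hdet, ?_⟩
  obtain ⟨h1, h2⟩ := inverse_eq _ hdet
  obtain ⟨h3, -⟩ := invOp_spec _ hdet
  unfold trv
  rw [h2]
  set B := invOp (opT (P, q, t)) with hB
  have hq0 : 0 ≤ ‖q‖ * ‖vecb P‖ := by positivity
  have hu : 1 ≤ t - ‖opA P‖ := by linarith
  have hBn : ∀ x, (t - ‖opA P‖) * ‖B x‖ ≤ ‖x‖ := by
    intro x
    have h4 : opA P (B x) + t • B x = x := by
      have := congrArg (fun L : E m →L[ℝ] E m => L x) h3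
      simpa [opT] using this
    have h5 : t • B x = x - opA P (B x) := eq_sub_of_add_eq' h4
    have h6 : ‖t • B x‖ ≤ ‖x‖ + ‖opA P‖ * ‖B x‖ := by
      rw [h5]
      exact (norm_sub_le _ _).trans (add_le_add_right ((opA P).le_opNorm _) _)
    rw [norm_smul, Real.norm_eq_abs, abs_of_pos (by linarith [norm_nonneg (opA P)])] at h6
    linarith
  set u : ℝ := t - ‖opA P‖ with hu'
  have h7 : u * (u * ‖B (B (vecb P))‖) ≤ ‖vecb P‖ := by
    have h8 := hBn (B (vecb P))
    have h9 := hBn (vecb P)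
    have : u * (u * ‖B (B (vecb P))‖) ≤ u * ‖B (vecb P)‖ :=
      mul_le_mul_of_nonneg_left h8 (by linarith)
    linarith
  have h8 : |q (B (B (vecb P)))| ≤ ‖q‖ * ‖B (B (vecb P))‖ := by
    have := q.le_opNorm (B (B (vecb P)))
    rwa [Real.norm_eq_abs] at this
  have h9 : ‖q‖ * ‖B (B (vecb P))‖ < 1 := by
    by_contra hcon
    rw [not_lt] at hcon
    have h10 : ‖q‖ * (u * (u * ‖B (B (vecb P))‖)) ≤ ‖q‖ * ‖vecb P‖ :=
      mul_le_mul_of_nonneg_left h7 (norm_nonneg _)
    have h11 : u * u * 1 ≤ u * u * (‖q‖ * ‖B (B (vecb P))‖) :=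
      mul_le_mul_of_nonneg_left hcon (by positivity)
    have h12 : ‖q‖ * ‖vecb P‖ < u := by
      simp only [hu']
      linarith
    nlinarith
  intro h0
  have h10 : q (B (B (vecb P))) = -1 := by
    have : 1 + q (B (B (vecb P))) = 0 := h0
    linarith
  rw [h10] at h8
  norm_num at h8
  linarith

/-- The set of bad heights is finite. -/
theorem finite_bad (P : (E m × ℝ) →L[ℝ] E m) (q : E m →L[ℝ] ℝ) :
    {t : ℝ | ¬ Good (P, q, t)}.Finite := by
  obtain ⟨t0, ht0, ht0'⟩ := exists_good P q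
  have h2 : χ2 (mat (opA P)) (fun i => q (bas m i)) ((bas m).repr (vecb P)) ≠ 0 := by
    intro h0
    have h3 := χ2_eval_eq P q t0 ht0
    rw [h0, Polynomial.eval_zero] at h3
    exact (mul_ne_zero (pow_ne_zero 2 ht0) ht0') h3.symm
  refine ((Polynomial.finite_setOfPred_isRoot (χ1_ne (mat (opA P)))).union
    (Polynomial.finite_setOfPred_isRoot h2)).subset ?_
  intro t ht
  by_contra hcon
  rw [mem_union, not_or] at hcon
  obtain ⟨hc1, hc2⟩ := hcon
  have hdet : (mat (opT (P, q, t))).det ≠ 0 := by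
    rw [mat_opT, ← χ1_eval]
    exact hc1
  apply ht
  refine ⟨(inverse_eq _ hdet).1, ?_⟩
  intro h0
  apply hc2
  show (χ2 (mat (opA P)) (fun i => q (bas m i)) ((bas m).repr (vecb P))).eval t = 0
  rw [χ2_eval_eq P q t hdet, h0, mul_zero]

end Pool.Agent.H64.KK
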