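import Mathlib
import Pool.Agent.H64.KK.Engine
import Pool.Agent.H64.KK.Cells
import Pool.Agent.H64.KK.Good

set_option autoImplicit false

/-!
# Decomposition into cells and the main theorem
-/

open MeasureTheory Set Metric Filter Topology

namespace Pool.Agent.H64.KK

variable {m : ℕ}

theorem exists_cellData (y : Y m) (hy : Good y) (N : ℝ) :
    ∃ c : CellData (E m), c.A = opA y.1 ∧ c.b = vecb y.1 ∧ c.q = y.2.1 ∧ c.t0 = y.2.2 ∧
      N ≤ c.M := by
  obtain ⟨h1, h2⟩ := hy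
  set B := Ring.inverse (opT y) with hB
  have hBA : ∀ x, B (opA y.1 x + y.2.2 • x) = x := by
    intro x
    have h3 := Ring.inverse_mul_cancel (opT y) h1
    have h4 : B (opT y x) = x := congrArg (fun L : E m →L[ℝ] E m => L x) h3
    have h5 : opT y x = opA y.1 x + y.2.2 • x := by simp [opT]
    rw [← h5]
    exact h4
  set M : ℝ := 1 + ‖B‖ + ‖vecb y.1‖ + ‖y.2.1‖ + |trv y|⁻¹ + |N| with hM
  have e1 := norm_nonneg B
  have e2 := norm_nonneg (vecb y.1)
  have e3 := norm_nonneg y.2.1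
  have e4 : 0 ≤ |trv y|⁻¹ := by positivity
  have e5 := abs_nonneg N
  have hM1 : 1 ≤ M := by linarith
  have hM0 : 0 < M := by linarith
  refine ⟨⟨opA y.1, B, vecb y.1, y.2.1, y.2.2, M, 1 / (100 * M ^ 6), hBA, hM1, by linarith,
    by linarith, by linarith, ?_, by positivity, ?_⟩, rfl, rfl, rfl, rfl, ?_⟩
  · have h3 : 0 < |trv y| := abs_pos.2 h2
    have h4 : |trv y|⁻¹ ≤ M := by linarith
    have h5 : |trv y|⁻¹ * |trv y| ≤ M * |trv y| := mul_le_mul_of_nonneg_right h4 h3.le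
    rw [inv_mul_cancel₀ h3.ne'] at h5
    exact h5
  · have : 100 * (1 / (100 * M ^ 6) * M ^ 6) = 1 := by field_simp
    exact this.le
  · show N ≤ M
    have := le_abs_self N
    linarith

/-- The slice of a cell. -/
def cellS (p : E m × ℝ → E m) (r : ℝ → E m → ℝ) (P : (E m × ℝ) →L[ℝ] E m) (q : E m →L[ℝ] ℝ)
    (η N : ℝ) (C : Set (E m × ℝ)) (w : ℝ) : Set (E m) :=
  {s | (s, w) ∈ C ∧ ‖s‖ ≤ N ∧
    (∀ x ∈ C, ‖p x - p (s, w) - P (x - (s, w))‖ ≤ η * ‖x - (s, w)‖) ∧
    (∀ s', (s', w) ∈ C → |r w s' - r w s - q (s' - s)| ≤ η * ‖s' - s‖)}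

theorem isCompact_cellS (p : E m × ℝ → E m) (r : ℝ → E m → ℝ) (P : (E m × ℝ) →L[ℝ] E m)
    (q : E m →L[ℝ] ℝ) (η N : ℝ) {C : Set (E m × ℝ)} (hC : IsClosed C) (w : ℝ) :
    IsCompact (cellS p r P q η N C w) := by
  refine Metric.isCompact_of_isClosed_isBounded ?_ ?_
  · refine IsSeqClosed.isClosed ?_
    intro u s hu hus
    have hsw : Tendsto (fun n => (u n, w)) atTop (𝓝 (s, w)) := hus.prodMk_nhds tendsto_const_nhds
    have h1 : (s, w) ∈ C := hC.mem_of_tendsto hsw (Eventually.of_forall fun n => (hu n).1)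
    have h2 : ‖s‖ ≤ N := le_of_tendsto hus.norm (Eventually.of_forall fun n => (hu n).2.1)
    -- continuity of `p` along the sequence
    have hz : Tendsto (fun n => (s, w) - (u n, w)) atTop (𝓝 0) := by
      have := (tendsto_const_nhds (x := (s, w))).sub hsw
      simpa using this
    have hp : Tendsto (fun n => p (u n, w)) atTop (𝓝 (p (s, w))) := by
      have h3 : Tendsto (fun n => p (s, w) - p (u n, w) - P ((s, w) - (u n, w))) atTop (𝓝 0) := by
        refine squeeze_zero_norm (a := fun n => η * ‖(s, w) - (u n, w)‖)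
          (fun n => (hu n).2.2.1 _ h1) ?_
        have := hz.norm.const_mul η
        simpa using this
      have h4 : Tendsto (fun n => P ((s, w) - (u n, w))) atTop (𝓝 0) := by
        have h5 := (P.continuous.tendsto 0).comp hz
        rw [map_zero] at h5
        exact h5
      have h5 := (tendsto_const_nhds (x := p (s, w))).sub (h3.add h4)
      simpa using h5
    have hr : Tendsto (fun n => r w (u n)) atTop (𝓝 (r w s)) := by
      have hz' : Tendsto (fun n => s - u n) atTop (𝓝 0) := by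
        have := (tendsto_const_nhds (x := s)).sub hus
        simpa using this
      have h3 : Tendsto (fun n => r w s - r w (u n) - q (s - u n)) atTop (𝓝 0) := by
        refine squeeze_zero_norm (a := fun n => η * ‖s - u n‖)
          (fun n => by rw [Real.norm_eq_abs]; exact (hu n).2.2.2 _ h1) ?_
        have := hz'.norm.const_mul η
        simpa using this
      have h4 : Tendsto (fun n => q (s - u n)) atTop (𝓝 0) := by
        have h5 := (q.continuous.tendsto 0).comp hz'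
        rw [map_zero] at h5
        exact h5
      have h5 := (tendsto_const_nhds (x := r w s)).sub (h3.add h4)
      simpa using h5
    refine ⟨h1, h2, fun x hx => ?_, fun s' hs' => ?_⟩
    · refine le_of_tendsto_of_tendsto' (b := atTop)
        (f := fun n => ‖p x - p (u n, w) - P (x - (u n, w))‖)
        (g := fun n => η * ‖x - (u n, w)‖) ?_ ?_ (fun n => (hu n).2.2.1 x hx)
      · have h3 : Tendsto (fun n => P (x - (u n, w))) atTop (𝓝 (P (x - (s, w)))) :=
          (P.continuous.tendsto _).comp (tendsto_const_nhds.sub hsw)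
        exact ((tendsto_const_nhds.sub hp).sub h3).norm
      · exact (tendsto_const_nhds.sub hsw).norm.const_mul η
    · refine le_of_tendsto_of_tendsto' (b := atTop)
        (f := fun n => |r w s' - r w (u n) - q (s' - u n)|)
        (g := fun n => η * ‖s' - u n‖) ?_ ?_ (fun n => (hu n).2.2.2 s' hs')
      · have h3 : Tendsto (fun n => q (s' - u n)) atTop (𝓝 (q (s' - s))) :=
          (q.continuous.tendsto _).comp (tendsto_const_nhds.sub hus)
        exact ((tendsto_const_nhds.sub hr).sub h3).abs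
      · exact (tendsto_const_nhds.sub hus).norm.const_mul η
  · refine (Metric.isBounded_closedBall (x := (0 : E m)) (r := N)).subset ?_
    intro s hs
    simpa using hs.2.1

theorem cellSets_cellS (p : E m × ℝ → E m) (r : ℝ → E m → ℝ) (P : (E m × ℝ) →L[ℝ] E m)
    (q : E m →L[ℝ] ℝ) (N : ℝ) (C : Set (E m × ℝ)) (c : CellData (E m)) (hA : c.A = opA P)
    (hb : c.b = vecb P) (hq : c.q = q) (hN : N ≤ c.M) :
    CellSets c p r {w | |w| ≤ N} (cellS p r P q c.η N C) := by
  refine ⟨?_, ?_, ?_, ?_⟩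
  · intro w _ s hs w' _ s' hs'
    have h1 := hs.2.2.1 (s', w') hs'.1
    have h2 : P ((s', w') - (s, w)) = c.A (s' - s) + (w' - w) • c.b := by
      rw [hA, hb]
      have h3 : (s', w') - (s, w) = ((s' - s, 0) : E m × ℝ) + (w' - w) • ((0, 1) : E m × ℝ) := by
        simp
      rw [h3, map_add, map_smul]
      rfl
    rw [h2] at h1
    rw [← sub_sub] at h1
    refine h1.trans (mul_le_mul_of_nonneg_left ?_ c.hη0.le)
    rw [Prod.mk_sub_mk, Prod.norm_mk]
    have e1 := norm_nonneg (s' - s)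
    have e2 := abs_nonneg (w' - w)
    rw [Real.norm_eq_abs]
    exact max_le (by linarith) (by linarith)
  · intro w _ s hs s' hs'
    have h1 := hs.2.2.2 s' hs'.1
    rw [hq]
    exact h1
  · intro w _ s hs
    exact hs.2.1.trans hN
  · intro w hw
    exact (le_trans hw hN)

/-- Full Hausdorff dimension, and covering numbers within a logarithm of the maximal order. -/
def Big (n : ℕ) (K : Set (E n)) : Prop :=
  (n : ENNReal) ≤ dimH K ∧ ∃ c : ℝ, 0 < c ∧ ∀ (j : ℕ) (F : Finset (E n)),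
    K ⊆ ⋃ x ∈ F, closedBall x ((1 / 2) ^ j) → c * (2 ^ j) ^ n / (j + 1) ≤ F.card

/-- The theorem for one cell. -/
theorem cell_dim (c : CellData (E m)) (p : E m × ℝ → E m) (r : ℝ → E m → ℝ) (S : ℝ → Set (E m))
    (W0 : Set ℝ) (h : CellSets c p r W0 S) (hS : ∀ w, IsCompact (S w)) (K : Set (E (m + 2)))
    (W : Set ℝ) (hWW : W ⊆ W0) (a : ℝ) (hWa : W ⊆ Icc a (a + 1)) (hW : 0 < volume W)
    (hK : ∀ w ∈ W, 0 < volume (Z c S w ∩ {z : E m × ℝ | pt p r z.1 w z.2 ∈ K})) :
    Big (m + 2) K := by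
  classical
  have hZc : ∀ w, IsCompact (Z c S w) := fun w => isCompact_Z (hS w)
  have hZm : ∀ w, MeasurableSet (Z c S w) := fun w => (hZc w).measurableSet
  set Φ : ℝ → E m × ℝ → E (m + 2) := fun w =>
    (Z c S w).piecewise (fun z => pt p r z.1 w z.2) (fun _ => 0) with hΦ
  have hΦm : ∀ w ∈ W0, Measurable (Φ w) := by
    intro w hw
    have h1 := continuousOn_pt p r w (S w) (closedBall c.t0 c.η) (continuousOn_p h hw)
      (continuousOn_r h hw)
    exact ContinuousOn.measurable_piecewise h1 continuousOn_const (hZm w)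
  set μ : ℝ → Measure (E m × ℝ) := fun w => volume.restrict (Z c S w) with hμ
  have hμf : ∀ w, IsFiniteMeasure (μ w) := by
    intro w
    refine ⟨?_⟩
    simp only [hμ, Measure.restrict_apply_univ]
    exact (hZc w).measure_lt_top
  set ν : ℝ → Measure (E (m + 2)) := fun w => (μ w).map (Φ w) with hν
  have hνf : ∀ w, IsFiniteMeasure (ν w) := by
    intro w
    have := hμf w
    simp only [hν]
    infer_instance
  have hpair : ∀ w ∈ W, ∀ w' ∈ W, ∀ δ : ℝ,
      ((ν w).prod (ν w')).real {x | dist x.1 x.2 ≤ δ} =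
        ((volume : Measure (E m × ℝ)).prod volume).real (G c p r S w w' δ) := by
    intro w hw w' hw' δ
    have h1 := hμf w
    have h2 := hμf w'
    have hcl : IsClosed {x : E (m + 2) × E (m + 2) | dist x.1 x.2 ≤ δ} :=
      isClosed_le continuous_dist continuous_const
    have hm1 := hΦm w (hWW hw)
    have hm2 := hΦm w' (hWW hw')
    simp only [Measure.real, hν]
    rw [Measure.map_prod_map _ _ hm1 hm2, Measure.map_apply (hm1.prodMap hm2) hcl.measurableSet]
    simp only [hμ]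
    rw [Measure.prod_restrict, Measure.restrict_apply' ((hZm w).prod (hZm w'))]
    congr 2
    ext x
    simp only [mem_inter_iff, mem_preimage, mem_ofPred_eq, Prod.map_fst, Prod.map_snd, G,
      mem_Iic]
    constructor
    · rintro ⟨h3, h4⟩
      refine ⟨h4, ?_⟩
      simp only [hΦ] at h3
      rwa [piecewise_eq_of_mem _ _ _ h4.1, piecewise_eq_of_mem _ _ _ h4.2] at h3
    · rintro ⟨h4, h3⟩
      refine ⟨?_, h4⟩
      simp only [hΦ]
      rwa [piecewise_eq_of_mem _ _ _ h4.1, piecewise_eq_of_mem _ _ _ h4.2]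
  have hC0 : 0 ≤ κ1 c * (κ2 c + κ3 c) := by
    have hM0 : 0 < c.M := by linarith [c.hM]
    have k1 : 0 ≤ κ1 c := by unfold κ1; positivity
    have k2 : 0 ≤ κ2 c := by unfold κ2; positivity
    have k3 : 0 ≤ κ3 c := by unfold κ3; positivity
    positivity
  have g1 : ∀ w ∈ W, ∀ w' ∈ W, ∀ δ : ℝ, 0 < δ →
      ((ν w).prod (ν w')).real {x | dist x.1 x.2 ≤ δ} ≤
        (κ1 c * (κ2 c + κ3 c)) * δ ^ (m + 1) := by
    intro w hw w' hw' δ hδ
    rw [hpair w hw w' hw' δ]
    exact (pair_measure h (hWW hw) (hWW hw') (hS w) (hS w') hδ).1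
  have g2 : ∀ w ∈ W, ∀ w' ∈ W, ∀ δ : ℝ, 0 < δ →
      |w - w'| * ((ν w).prod (ν w')).real {x | dist x.1 x.2 ≤ δ} ≤
        (κ1 c * (κ2 c + κ3 c)) * δ ^ (m + 1 + 1) := by
    intro w hw w' hw' δ hδ
    rw [hpair w hw w' hw' δ]
    exact (pair_measure h (hWW hw) (hWW hw') (hS w) (hS w') hδ).2
  have g3 : ∀ w ∈ W, 0 < ν w K := by
    intro w hw
    have h1 := hK w hw
    have h2 : volume (Z c S w ∩ {z : E m × ℝ | pt p r z.1 w z.2 ∈ K}) ≤ μ w (Φ w ⁻¹' K) := by
      simp only [hμ]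
      rw [Measure.restrict_apply' (hZm w)]
      refine measure_mono ?_
      intro z hz
      refine ⟨?_, hz.1⟩
      simp only [hΦ, mem_preimage]
      rw [piecewise_eq_of_mem _ _ _ hz.1]
      exact hz.2
    have h3 : μ w (Φ w ⁻¹' K) ≤ ν w K :=
      Measure.le_map_apply (hΦm w (hWW hw)).aemeasurable K
    exact h1.trans_le (h2.trans h3)
  exact ⟨engine ν W a hWa hW (m + 1) (κ1 c * (κ2 c + κ3 c)) hC0 g1 g2 K g3,
    engine_count ν W a hWa hW (m + 1) (κ1 c * (κ2 c + κ3 c)) hC0 g1 g2 K g3⟩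

/-- Every good point lies in a cell. -/
theorem exists_cell_of_good (p : E m × ℝ → E m) (r : ℝ → E m → ℝ) (w : ℝ) (s : E m) (N η : ℝ)
    (hη : 0 < η) (hp : DifferentiableAt ℝ p (s, w)) (hr : DifferentiableAt ℝ (r w) s)
    (P : (E m × ℝ) →L[ℝ] E m) (q : E m →L[ℝ] ℝ) (hP : ‖fderiv ℝ p (s, w) - P‖ ≤ η / 2)
    (hq : ‖fderiv ℝ (r w) s - q‖ ≤ η / 2) (hs : ‖s‖ ≤ N) :
    ∃ k l : ℕ, s ∈ cellS p r P q η N
      (closedBall (TopologicalSpace.denseSeq (E m × ℝ) l) (1 / ((k : ℝ) + 1))) w := by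
  have h1 : ∀ᶠ x in 𝓝 (s, w), ‖p x - p (s, w) - fderiv ℝ p (s, w) (x - (s, w))‖ ≤
      η / 2 * ‖x - (s, w)‖ := hp.hasFDerivAt.isLittleO.def (by positivity)
  have h2 : ∀ᶠ x in 𝓝 s, ‖r w x - r w s - fderiv ℝ (r w) s (x - s)‖ ≤ η / 2 * ‖x - s‖ :=
    hr.hasFDerivAt.isLittleO.def (by positivity)
  obtain ⟨ρ1, hρ1, hb1⟩ := Metric.eventually_nhds_iff_ball.1 h1
  obtain ⟨ρ2, hρ2, hb2⟩ := Metric.eventually_nhds_iff_ball.1 h2
  obtain ⟨k, hk⟩ := exists_nat_one_div_lt (lt_min (half_pos hρ1) (half_pos hρ2))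
  set ρ : ℝ := 1 / ((k : ℝ) + 1) with hρ
  have hρ0 : 0 < ρ := by positivity
  have hk1 : 2 * ρ < ρ1 := by have := hk.trans_le (min_le_left _ _); linarith
  have hk2 : 2 * ρ < ρ2 := by have := hk.trans_le (min_le_right _ _); linarith
  obtain ⟨x0, hx0, l, hl⟩ : ∃ x0 ∈ ball (s, w) ρ, ∃ l,
      TopologicalSpace.denseSeq (E m × ℝ) l = x0 := by
    obtain ⟨l, hl⟩ := (TopologicalSpace.denseRange_denseSeq (E m × ℝ)).exists_mem_open
      isOpen_ball (nonempty_ball.2 hρ0 : (ball (s, w) ρ).Nonempty)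
    exact ⟨_, hl, l, rfl⟩
  refine ⟨k, l, ?_⟩
  rw [hl]
  have hmem : (s, w) ∈ closedBall x0 ρ := by
    rw [mem_closedBall']
    exact (mem_ball.1 hx0).le
  have hsub : ∀ x ∈ closedBall x0 ρ, dist x (s, w) < 2 * ρ := by
    intro x hx
    have e1 := mem_closedBall.1 hx
    have e2 := mem_ball.1 hx0
    have := dist_triangle x x0 (s, w)
    linarith
  refine ⟨hmem, hs, ?_, ?_⟩
  · intro x hx
    have e1 := hb1 x (mem_ball.2 ((hsub x hx).trans hk1))
    have e2 : p x - p (s, w) - P (x - (s, w)) = (p x - p (s, w) -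
        fderiv ℝ p (s, w) (x - (s, w))) + (fderiv ℝ p (s, w) - P) (x - (s, w)) := by
      rw [_root_.sub_apply]; abel
    rw [e2]
    refine (norm_add_le _ _).trans ?_
    have e3 := (fderiv ℝ p (s, w) - P).le_opNorm (x - (s, w))
    have e4 : ‖fderiv ℝ p (s, w) - P‖ * ‖x - (s, w)‖ ≤ η / 2 * ‖x - (s, w)‖ :=
      mul_le_mul_of_nonneg_right hP (norm_nonneg _)
    linarith
  · intro s' hs'
    have e0 : dist s' s < 2 * ρ := by
      have := hsub (s', w) hs'
      rw [Prod.dist_eq, max_lt_iff] at this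
      exact this.1
    have e1 := hb2 s' (mem_ball.2 (e0.trans hk2))
    rw [Real.norm_eq_abs] at e1
    have e2 : r w s' - r w s - q (s' - s) = (r w s' - r w s -
        fderiv ℝ (r w) s (s' - s)) + (fderiv ℝ (r w) s - q) (s' - s) := by
      rw [_root_.sub_apply]; ring
    rw [e2]
    refine (abs_add_le _ _).trans ?_
    have e3 := (fderiv ℝ (r w) s - q).le_opNorm (s' - s)
    rw [Real.norm_eq_abs] at e3
    have e4 : ‖fderiv ℝ (r w) s - q‖ * ‖s' - s‖ ≤ η / 2 * ‖s' - s‖ :=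
      mul_le_mul_of_nonneg_right hq (norm_nonneg _)
    linarith

/-- The linear data at a point. -/
noncomputable def lin (p : E m × ℝ → E m) (r : ℝ → E m → ℝ) (w : ℝ) (z : E m × ℝ) : Y m :=
  (fderiv ℝ p (z.1, w), fderiv ℝ (r w) z.1, z.2)

theorem measurable_lin (p : E m × ℝ → E m) (r : ℝ → E m → ℝ) (w : ℝ) :
    Measurable (lin p r w) := by
  unfold lin
  have h1 : Measurable (fun z : E m × ℝ => fderiv ℝ p (z.1, w)) :=
    (measurable_fderiv ℝ p).comp (measurable_fst.prodMk measurable_const)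
  have h2 : Measurable (fun z : E m × ℝ => fderiv ℝ (r w) z.1) :=
    (measurable_fderiv ℝ (r w)).comp measurable_fst
  exact h1.prodMk (h2.prodMk measurable_snd)

theorem bad_null (p : E m × ℝ → E m) (r : ℝ → E m → ℝ) (w : ℝ) :
    volume {z : E m × ℝ | ¬ Good (lin p r w z)} = 0 := by
  have h1 : MeasurableSet {z : E m × ℝ | ¬ Good (lin p r w z)} := by
    have h2 : MeasurableSet {y : Y m | Good y} := isOpen_Good.measurableSet
    exact (measurable_lin p r w h2).compl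
  rw [Measure.volume_eq_prod, Measure.measure_prod_null h1]
  refine Eventually.of_forall fun s => ?_
  exact (finite_bad (fderiv ℝ p (s, w)) (fderiv ℝ (r w) s)).measure_zero _

/-- Pigeonhole for parametrised outer measures. -/
theorem pig {Ω Λ : Type*} [MeasurableSpace Ω] [Countable Λ] (μ : Measure Ω) (W : Set ℝ)
    (hW : 0 < volume W) (P : ℝ → Set Ω) (Q : Λ → ℝ → Set Ω) (h : ∀ w ∈ W, 0 < μ (P w))
    (hPQ : ∀ w ∈ W, P w ⊆ ⋃ i, Q i w) : ∃ i, 0 < volume {w ∈ W | 0 < μ (Q i w)} := by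
  by_contra hcon
  push Not at hcon
  have h1 : W ⊆ ⋃ i, {w ∈ W | 0 < μ (Q i w)} := by
    intro w hw
    by_contra hno
    simp only [mem_iUnion, not_exists] at hno
    have h2 : ∀ i, μ (Q i w) = 0 := by
      intro i
      by_contra h3
      exact hno i ⟨hw, pos_iff_ne_zero.2 h3⟩
    have h3 : μ (P w) ≤ 0 :=
      (measure_mono (hPQ w hw)).trans ((measure_iUnion_le _).trans (by simp [h2]))
    exact absurd (h w hw) (not_lt.2 h3)
  have h2 : volume W ≤ 0 := (measure_mono h1).trans ((measure_iUnion_le _).trans (by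
    have : ∀ i, volume {w ∈ W | 0 < μ (Q i w)} = 0 := fun i => nonpos_iff_eq_zero.1 (hcon i)
    simp [this]))
  exact absurd hW (not_lt.2 h2)

/-- **Main theorem, general form.** -/
theorem main_general (p : E m × ℝ → E m) (r : ℝ → E m → ℝ) (K : Set (E (m + 2))) (W : Set ℝ)
    (hW : 0 < volume W)
    (hK : ∀ w ∈ W, 0 < volume {z : E m × ℝ | DifferentiableAt ℝ p (z.1, w) ∧
      DifferentiableAt ℝ (r w) z.1 ∧ pt p r z.1 w z.2 ∈ K}) :
    Big (m + 2) K := by
  classical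
  -- choose cell data
  have hex : ∀ (N : ℕ) (y : Y m), ∃ c : CellData (E m), Good y →
      (c.A = opA y.1 ∧ c.b = vecb y.1 ∧ c.q = y.2.1 ∧ c.t0 = y.2.2 ∧ (N : ℝ) ≤ c.M) := by
    intro N y
    by_cases hy : Good y
    · obtain ⟨c, hc⟩ := exists_cellData y hy N
      exact ⟨c, fun _ => hc⟩
    · have hW0 := hW
      obtain ⟨w, hw⟩ := nonempty_of_measure_ne_zero hW.ne'
      obtain ⟨t, ht⟩ : ∃ t : ℝ, Good ((0 : (E m × ℝ) →L[ℝ] E m), (0 : E m →L[ℝ] ℝ), t) := by
        by_contra hno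
        push Not at hno
        have := finite_bad (0 : (E m × ℝ) →L[ℝ] E m) (0 : E m →L[ℝ] ℝ)
        exact Set.infinite_univ (this.subset fun t _ => hno t)
      obtain ⟨c, -⟩ := exists_cellData _ ht N
      exact ⟨c, fun h => absurd h hy⟩
  choose c hc using hex
  have hcov : ∀ N : ℕ, ∃ T ⊆ {y : Y m | Good y}, T.Countable ∧
      {y : Y m | Good y} ⊆ ⋃ y ∈ T, ball y ((c N y).η / 2) := by
    intro N
    refine TopologicalSpace.countable_cover_nhdsWithin fun y _ => ?_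
    exact mem_nhdsWithin_of_mem_nhds (ball_mem_nhds _ (half_pos (c N y).hη0))
  choose T hTG hTc hTcov using hcov
  have hTcount : ∀ N, Countable (T N) := fun N => (hTc N).to_subtype
  let Λ : Type := Σ N : ℕ, (T N) × ℕ × ℕ × ℤ
  have hΛ : Countable Λ := by
    have := hTcount
    infer_instance
  let Q : Λ → ℝ → Set (E m × ℝ) := fun i w =>
    {z | |w| ≤ i.1 ∧ w ∈ Icc (i.2.2.2.2 : ℝ) (i.2.2.2.2 + 1) ∧
      z ∈ Z (c i.1 i.2.1) (cellS p r (i.2.1 : Y m).1 (i.2.1 : Y m).2.1 (c i.1 i.2.1).η i.1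
        (closedBall (TopologicalSpace.denseSeq (E m × ℝ) i.2.2.2.1)
          (1 / ((i.2.2.1 : ℝ) + 1)))) w ∩ {z : E m × ℝ | pt p r z.1 w z.2 ∈ K}}
  let P : ℝ → Set (E m × ℝ) := fun w => {z : E m × ℝ | DifferentiableAt ℝ p (z.1, w) ∧
      DifferentiableAt ℝ (r w) z.1 ∧ pt p r z.1 w z.2 ∈ K} \ {z | ¬ Good (lin p r w z)}
  have hP : ∀ w ∈ W, 0 < volume (P w) := by
    intro w hw
    simp only [P]
    rw [measure_sdiff_null (bad_null p r w)]
    exact hK w hw
  have hPQ : ∀ w ∈ W, P w ⊆ ⋃ i, Q i w := by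
    intro w _ z hz
    obtain ⟨⟨hd1, hd2, hzK⟩, hg⟩ := hz
    have hg' : Good (lin p r w z) := by
      by_contra h
      exact hg h
    obtain ⟨N, hN⟩ := exists_nat_ge (max ‖z.1‖ |w|)
    have hN1 : ‖z.1‖ ≤ N := (le_max_left _ _).trans hN
    have hN2 : |w| ≤ N := (le_max_right _ _).trans hN
    have h1 := hTcov N hg'
    simp only [mem_iUnion] at h1
    obtain ⟨y, hy, hyb⟩ := h1
    rw [mem_ball, Prod.dist_eq, Prod.dist_eq, max_lt_iff, max_lt_iff] at hyb
    obtain ⟨h2, h3, h4⟩ := hyb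
    obtain ⟨k, l, hkl⟩ := exists_cell_of_good p r w z.1 N (c N y).η (c N y).hη0 hd1 hd2
      y.1 y.2.1 (by rw [← dist_eq_norm]; exact h2.le) (by rw [← dist_eq_norm]; exact h3.le) hN1
    refine mem_iUnion.2 ⟨⟨N, ⟨y, hy⟩, k, l, ⌊w⌋⟩, hN2, ⟨Int.floor_le w,
      (Int.lt_floor_add_one w).le⟩, ⟨hkl, ?_⟩, hzK⟩
    rw [mem_closedBall, (hc N y (hTG N hy)).2.2.2.1]
    exact h4.le.trans (half_le_self (c N y).hη0.le)
  obtain ⟨i, hi⟩ := pig volume W hW P Q hP hPQ
  obtain ⟨N, y, k, l, a⟩ := i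
  have hcy := hc N y (hTG N y.2)
  have hcl : IsClosed (closedBall (TopologicalSpace.denseSeq (E m × ℝ) l) (1 / ((k : ℝ) + 1))) :=
    isClosed_closedBall
  refine cell_dim (c N y) p r _ {w | |w| ≤ (N : ℝ)}
    (cellSets_cellS p r (y : Y m).1 (y : Y m).2.1 N _ (c N y) hcy.1 hcy.2.1 hcy.2.2.1
      hcy.2.2.2.2)
    (isCompact_cellS p r _ _ _ _ hcl) K _ ?_ (a : ℝ) ?_ hi ?_
  · intro w hw
    obtain ⟨z, hz⟩ := nonempty_of_measure_ne_zero hw.2.ne'
    exact hz.1
  · intro w hw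
    obtain ⟨z, hz⟩ := nonempty_of_measure_ne_zero hw.2.ne'
    exact hz.2.1
  · intro w hw
    exact hw.2.trans_le (measure_mono fun z hz => hz.2.2)

end Pool.Agent.H64.KK
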