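import Mathlib
import Pool.Agent.H64.KK.Main

set_option autoImplicit false

/-!
# Statement in terms of direction-to-position maps `a : ℝ^(n-1) → ℝ^(n-1)`
-/

open MeasureTheory Set Metric Filter Topology

namespace Pool.Agent.H64.KK

variable {m : ℕ}

/-- The vector `(s, w)` of `ℝ^(m+1)`. -/
noncomputable def glue (s : E m) (w : ℝ) : E (m + 1) :=
  WithLp.toLp 2 (Fin.snoc (α := fun _ => ℝ) (fun i => s i) w)

/-- The point at height `t` of the line of `ℝ^(n+1)` through `(0, a v)` with direction `(1, v)`,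
that is `(t, a v + t v)`. -/
noncomputable def linePt {n : ℕ} (a : E n → E n) (v : E n) (t : ℝ) : E (n + 1) :=
  WithLp.toLp 2 (Fin.cons t (fun i => a v i + t * v i))

/-- The first `m` entries, as a function of `(s, w)`. -/
noncomputable def pOf (a : E (m + 1) → E (m + 1)) (x : E m × ℝ) : E m :=
  WithLp.toLp 2 (fun i => a (glue x.1 x.2) i.castSucc)

/-- The last entry, as a function of `w` and `s`. -/
noncomputable def rOf (a : E (m + 1) → E (m + 1)) (w : ℝ) (s : E m) : ℝ :=
  a (glue s w) (Fin.last m)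

theorem pt_eq (a : E (m + 1) → E (m + 1)) (s : E m) (w t : ℝ) :
    pt (pOf a) (rOf a) s w t = linePt a (glue s w) t := by
  unfold pt linePt pOf rOf
  congr 1
  congr 1
  funext i
  refine Fin.lastCases ?_ (fun i => ?_) i
  · simp [glue]
  · simp [glue]

/-- The coordinate change. -/
noncomputable def glueE (m : ℕ) : (E m × ℝ) ≃L[ℝ] E (m + 1) :=
  LinearEquiv.toContinuousLinearEquiv
    { toFun := fun x => glue x.1 x.2
      invFun := fun v => (WithLp.toLp 2 (fun i => v i.castSucc), v (Fin.last m))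
      map_add' := by
        intro x y
        ext i
        refine Fin.lastCases ?_ (fun i => ?_) i <;> simp [glue]
      map_smul' := by
        intro c x
        ext i
        refine Fin.lastCases ?_ (fun i => ?_) i <;> simp [glue]
      left_inv := by
        intro x
        refine Prod.ext ?_ ?_
        · ext i
          simp [glue]
        · simp [glue]
      right_inv := by
        intro v
        ext i
        refine Fin.lastCases ?_ (fun i => ?_) i <;> simp [glue] }

theorem glueE_apply (s : E m) (w : ℝ) : glueE m (s, w) = glue s w := rfl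

theorem differentiableAt_pOf (a : E (m + 1) → E (m + 1)) (s : E m) (w : ℝ)
    (h : ∀ i : Fin m, DifferentiableAt ℝ (fun v => a v i.castSucc) (glue s w)) :
    DifferentiableAt ℝ (pOf a) (s, w) := by
  rw [differentiableAt_euclidean]
  intro i
  have h1 : DifferentiableAt ℝ (fun x : E m × ℝ => glueE m x) (s, w) :=
    (glueE m).differentiableAt
  exact (h i).comp (s, w) h1

theorem main1 (a : E (m + 1) → E (m + 1)) (K : Set (E (m + 2))) (W : Set ℝ)
    (hW : 0 < volume W)
    (hK : ∀ w ∈ W, 0 < volume {z : E m × ℝ |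
      (∀ i : Fin m, DifferentiableAt ℝ (fun v => a v i.castSucc) (glue z.1 w)) ∧
      DifferentiableAt ℝ (fun s => a (glue s w) (Fin.last m)) z.1 ∧
      linePt a (glue z.1 w) z.2 ∈ K}) : Big (m + 2) K := by
  refine main_general (pOf a) (rOf a) K W hW fun w hw => (hK w hw).trans_le (measure_mono ?_)
  rintro z ⟨h1, h2, h3⟩
  exact ⟨differentiableAt_pOf a z.1 w h1, h2, by rw [pt_eq]; exact h3⟩

/-- Local Rademacher theorem. -/
theorem rademacher_local {n : ℕ} {U : Set (E n)} (hU : IsOpen U) {f : E n → ℝ}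
    (hf : LocallyLipschitzOn U f) : volume {v ∈ U | ¬ DifferentiableAt ℝ f v} = 0 := by
  refine measure_null_of_locally_null _ fun v hv => ?_
  obtain ⟨C, t, ht, hL⟩ := hf hv.1
  rw [hU.nhdsWithin_eq hv.1] at ht
  obtain ⟨u, hut, huo, hvu⟩ := _root_.mem_nhds_iff.1 ht
  refine ⟨u ∩ {v ∈ U | ¬ DifferentiableAt ℝ f v}, ?_, ?_⟩
  · exact inter_mem (mem_nhdsWithin_of_mem_nhds (huo.mem_nhds hvu)) self_mem_nhdsWithin
  · have h1 := (hL.mono hut).ae_differentiableWithinAt_of_mem (μ := volume)
    rw [ae_iff] at h1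
    refine measure_mono_null ?_ h1
    rintro x ⟨hxu, -, hx⟩ hcon
    exact hx ((hcon hxu).differentiableAt (huo.mem_nhds hxu))

/-- The measure class is preserved by the coordinate change. -/
theorem glue_null_iff {N : Set (E (m + 1))} (hN : MeasurableSet N) :
    volume N = 0 ↔ volume ((glueE m) ⁻¹' N) = 0 := by
  have h0 : (volume : Measure (E m × ℝ)).IsAddHaarMeasure := by
    rw [Measure.volume_eq_prod]; infer_instance
  have hA : (Measure.map (glueE m) (volume : Measure (E m × ℝ))).IsAddHaarMeasure :=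
    (glueE m).isAddHaarMeasure_map _
  have h1 := Measure.absolutelyContinuous_isAddHaarMeasure
    (Measure.map (glueE m) (volume : Measure (E m × ℝ))) (volume : Measure (E (m + 1)))
  have h2 := Measure.absolutelyContinuous_isAddHaarMeasure
    (volume : Measure (E (m + 1))) (Measure.map (glueE m) (volume : Measure (E m × ℝ)))
  have h3 : Measure.map (glueE m) (volume : Measure (E m × ℝ)) N =
      volume ((glueE m) ⁻¹' N) :=
    Measure.map_apply (glueE m).continuous.measurable hN
  rw [← h3]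
  exact ⟨fun h => h1 h, fun h => h2 h⟩

/-- A measurable set is null iff almost all its slices are. -/
theorem slice_iff {N : Set (E (m + 1))} (hN : MeasurableSet N) :
    volume N = 0 ↔ ∀ᵐ w : ℝ, volume {s : E m | glue s w ∈ N} = 0 := by
  rw [glue_null_iff hN]
  have hm : MeasurableSet ((glueE m) ⁻¹' N) := (glueE m).continuous.measurable hN
  rw [Measure.volume_eq_prod, Measure.prod_apply_symm hm,
    lintegral_eq_zero_iff (measurable_measure_prodMk_right hm)]
  rfl

/-- Null sets have null slices. -/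
theorem slice_null {N : Set (E (m + 1))} (hN : volume N = 0) :
    ∀ᵐ w : ℝ, volume {s : E m | glue s w ∈ N} = 0 := by
  have h1 : volume (toMeasurable volume N) = 0 := by rw [measure_toMeasurable, hN]
  have h2 := (slice_iff (measurableSet_toMeasurable volume N)).1 h1
  filter_upwards [h2] with w hw
  exact measure_mono_null (fun s hs => subset_toMeasurable volume N hs) hw

/-- Slices of open sets are open. -/
theorem continuous_glue (w : ℝ) : Continuous (fun s : E m => glue s w) :=
  (glueE m).continuous.comp (Continuous.prodMk_left w)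

theorem main2 (U : Set (E (m + 1))) (hU : IsOpen U) (a : E (m + 1) → E (m + 1))
    (h1 : ∀ i : Fin m, LocallyLipschitzOn U (fun v => a v i.castSucc))
    (h2 : ∀ w : ℝ, LocallyLipschitzOn {s : E m | glue s w ∈ U}
      (fun s => a (glue s w) (Fin.last m)))
    (D : Set (E (m + 1))) (hDm : MeasurableSet D) (hDU : D ⊆ U) (hD : 0 < volume D)
    (K : Set (E (m + 2)))
    (hK : ∀ v ∈ D, ∃ α β : ℝ, α < β ∧ ∀ t ∈ Ioo α β, linePt a v t ∈ K) : Big (m + 2) K := by
  -- the parameters with a slice of positive measure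
  have hW0 : 0 < volume {w : ℝ | 0 < volume {s : E m | glue s w ∈ D}} := by
    rw [pos_iff_ne_zero]
    intro h0
    have h3 : ∀ᵐ w : ℝ, volume {s : E m | glue s w ∈ D} = 0 := by
      rw [ae_iff]
      convert h0 using 3
      ext w
      exact pos_iff_ne_zero.symm
    exact hD.ne' ((slice_iff hDm).2 h3)
  -- the exceptional sets
  have hN : ∀ i : Fin m, ∀ᵐ w : ℝ, volume {s : E m | glue s w ∈
      {v ∈ U | ¬ DifferentiableAt ℝ (fun v => a v i.castSucc) v}} = 0 := fun i =>
    slice_null (rademacher_local hU (h1 i))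
  have hN' := ae_all_iff.2 hN
  set W : Set ℝ := {w : ℝ | 0 < volume {s : E m | glue s w ∈ D} ∧
    ∀ i : Fin m, volume {s : E m | glue s w ∈
      {v ∈ U | ¬ DifferentiableAt ℝ (fun v => a v i.castSucc) v}} = 0} with hW
  have hWpos : 0 < volume W := by
    have h3 : volume {w : ℝ | ¬ ∀ i : Fin m, volume {s : E m | glue s w ∈
      {v ∈ U | ¬ DifferentiableAt ℝ (fun v => a v i.castSucc) v}} = 0} = 0 := by
      rw [← ae_iff]; exact hN'
    have h4 : W = {w : ℝ | 0 < volume {s : E m | glue s w ∈ D}} \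
      {w : ℝ | ¬ ∀ i : Fin m, volume {s : E m | glue s w ∈
      {v ∈ U | ¬ DifferentiableAt ℝ (fun v => a v i.castSucc) v}} = 0} := by
      ext w
      simp only [hW, Set.mem_sdiff, mem_ofPred_eq, not_not]
    rw [h4, measure_sdiff_null h3]
    exact hW0
  refine main1 a K W hWpos ?_
  intro w hw
  have hsl : IsOpen {s : E m | glue s w ∈ U} := hU.preimage (continuous_glue w)
  have hlast : volume {s ∈ {s : E m | glue s w ∈ U} |
      ¬ DifferentiableAt ℝ (fun s => a (glue s w) (Fin.last m)) s} = 0 :=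
    rademacher_local hsl (h2 w)
  set B : Set (E m) := {s ∈ {s : E m | glue s w ∈ U} |
      ¬ DifferentiableAt ℝ (fun s => a (glue s w) (Fin.last m)) s} ∪
      ⋃ i : Fin m, {s : E m | glue s w ∈
      {v ∈ U | ¬ DifferentiableAt ℝ (fun v => a v i.castSucc) v}} with hB
  have hBnull : volume B = 0 := by
    rw [hB, measure_union_null_iff, measure_iUnion_null_iff]
    exact ⟨hlast, hw.2⟩
  have hpos : 0 < volume ({s : E m | glue s w ∈ D} \ B) := by
    rw [measure_sdiff_null hBnull]; exact hw.1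
  -- choose rational heights
  have hcov : ({s : E m | glue s w ∈ D} \ B) ⊆ ⋃ αβ : ℚ × ℚ,
      {s ∈ {s : E m | glue s w ∈ D} \ B | (αβ.1 : ℝ) < αβ.2 ∧
        ∀ t ∈ Ioo (αβ.1 : ℝ) αβ.2, linePt a (glue s w) t ∈ K} := by
    intro s hs
    obtain ⟨α, β, hαβ, hseg⟩ := hK _ hs.1
    obtain ⟨q1, hq1, hq1'⟩ := exists_rat_btwn hαβ
    obtain ⟨q2, hq2, hq2'⟩ := exists_rat_btwn hq1'
    refine mem_iUnion.2 ⟨(q1, q2), hs, hq2, fun t ht => hseg t ⟨?_, ?_⟩⟩
    · exact hq1.trans ht.1
    · exact ht.2.trans hq2'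
  obtain ⟨αβ, hαβ⟩ : ∃ αβ : ℚ × ℚ, 0 < volume
      {s ∈ {s : E m | glue s w ∈ D} \ B | (αβ.1 : ℝ) < αβ.2 ∧
        ∀ t ∈ Ioo (αβ.1 : ℝ) αβ.2, linePt a (glue s w) t ∈ K} := by
    by_contra hcon
    push Not at hcon
    have h3 := (measure_mono hcov).trans (measure_iUnion_le (μ := volume) _)
    have h4 : ∀ αβ : ℚ × ℚ, volume
      {s ∈ {s : E m | glue s w ∈ D} \ B | (αβ.1 : ℝ) < αβ.2 ∧
        ∀ t ∈ Ioo (αβ.1 : ℝ) αβ.2, linePt a (glue s w) t ∈ K} = 0 := fun αβ =>
      nonpos_iff_eq_zero.1 (hcon αβ)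
    simp only [h4, tsum_zero] at h3
    exact absurd hpos (not_lt.2 h3)
  set A : Set (E m) := {s ∈ {s : E m | glue s w ∈ D} \ B | (αβ.1 : ℝ) < αβ.2 ∧
        ∀ t ∈ Ioo (αβ.1 : ℝ) αβ.2, linePt a (glue s w) t ∈ K} with hA
  obtain ⟨s0, hs0⟩ := nonempty_of_measure_ne_zero hαβ.ne'
  have hprod : 0 < (volume : Measure (E m × ℝ)) (A ×ˢ Ioo (αβ.1 : ℝ) αβ.2) := by
    rw [Measure.volume_eq_prod, Measure.prod_prod, Real.volume_Ioo]
    refine ENNReal.mul_pos hαβ.ne' ?_
    have := hs0.2.1
    simpa using this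
  refine hprod.trans_le (measure_mono ?_)
  rintro ⟨s, t⟩ ⟨hs, ht⟩
  obtain ⟨⟨hsD, hsB⟩, -, hseg⟩ := hs
  rw [hB, mem_union, not_or] at hsB
  refine ⟨fun i => ?_, ?_, hseg t ht⟩
  · by_contra hcon
    exact hsB.2 (mem_iUnion.2 ⟨i, hDU hsD, hcon⟩)
  · by_contra hcon
    exact hsB.1 ⟨hDU hsD, hcon⟩

end Pool.Agent.H64.KK
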